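import Pool.Agent.H35.FY.Base

/-!
# A left context and two right contexts, exactly one of which is completed by each word
-/

set_option autoImplicit false

namespace Pool.Agent.H35.FY

open Pool.Agent.H35.FC (IsCode Facts Tiles star_nil star_append star_of_mem split cut)
open Pool.Agent.H35.FS (Aset Bset Nset st_last st_first SDeg)

/-- `l` completes each word with exactly one of `r`, `r'`. -/
structure Two {α : Type} (C : Set (List α)) (l r r' : List α) : Prop where
  fin : C.Finite
  code : IsCode C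
  lne : l ≠ []
  rne : r ≠ []
  rne' : r' ≠ []
  comp : ∀ w : List α, l ++ (w ++ r) ∈ FC.Star C ∨ l ++ (w ++ r') ∈ FC.Star C
  uniq : ∀ w : List α, ¬ (l ++ (w ++ r) ∈ FC.Star C ∧ l ++ (w ++ r') ∈ FC.Star C)

section
variable {α : Type} {C : Set (List α)} {l r : List α}

theorem nil_aset (hC : IsCode C) (hl : l ≠ []) {g : List α} (h : l ++ g ∈ FC.Star C) :
    [] ∈ Aset C l g := by
  obtain ⟨x, p, hx, hp, e⟩ := st_last h (by simp [hl])
  refine ⟨x, p, hx, ?_, e, by simpa using hp⟩
  rintro rfl
  exact hC.1 hp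

theorem nil_bset (hC : IsCode C) (hr : r ≠ []) {f : List α} (h : f ++ r ∈ FC.Star C) :
    [] ∈ Bset C r f := by
  obtain ⟨s, y, hs, hy, e⟩ := st_first h (by simp [hr])
  refine ⟨s, y, hy, ?_, e, by simpa using hs⟩
  rintro rfl
  exact hC.1 hs

/-- Existence. -/
theorem cover_or (hC : IsCode C) (hl : l ≠ []) (hr : r ≠ []) {g f w : List α}
    (h : l ++ (g ++ (w ++ (f ++ r))) ∈ FC.Star C) :
    w ∈ Nset C l r g f ∨ ∃ t, t ∈ Facts (Aset C l g) (FC.Star C) (Bset C r f) w := by
  have h2 : (l ++ g) ++ (w ++ (f ++ r)) ∈ FC.Star C := by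
    simpa only [List.append_assoc] using h
  rcases split α C _ _ h2 with ⟨hu, hv⟩ | ⟨X, p, s, Y, hX, hY, hp, hs, hps, e1, e2⟩
  · have hA : [] ∈ Aset C l g := nil_aset hC hl hu
    rcases split α C _ _ hv with ⟨hw, hf⟩ | ⟨X, p, s, Y, hX, hY, hp, hs, hps, e1, e2⟩
    · right
      exact ⟨([], w, []), hA, hw, nil_bset hC hr hf, by simp⟩
    · right
      refine ⟨([], X, p), hA, hX, ⟨s, Y, hY, hs, e2, hps⟩, ?_⟩
      simp only [List.nil_append]
      exact e1.symm
  · rcases List.append_eq_append_iff.1 e2 with ⟨s', h3, h4⟩ | ⟨w', h3, h4⟩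
    · by_cases hs' : s' = []
      · right
        subst hs'
        rw [List.append_nil] at h3
        rw [List.nil_append] at h4
        refine ⟨(w, [], []), ⟨X, p, hX, hp, e1, by rw [← h3]; exact hps⟩, star_nil,
          nil_bset hC hr (by rw [h4]; exact hY), by simp⟩
      · left
        refine ⟨X, p, s', Y, hX, hY, hp, hs', e1, h4, ?_⟩
        rw [List.append_assoc, ← h3]
        exact hps
    · right
      have hA : s ∈ Aset C l g := ⟨X, p, hX, hp, e1, hps⟩
      rw [h4] at hY
      rcases split α C _ _ hY with ⟨hw, hf⟩ | ⟨X', p', s', Y', hX', hY', hp', hs', hps', e1', e2'⟩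
      · refine ⟨(s, w', []), hA, hw, nil_bset hC hr hf, ?_⟩
        simp only [List.append_nil]
        exact h3.symm
      · refine ⟨(s, X', p'), hA, hX', ⟨s', Y', hY', hs', e2', hps'⟩, ?_⟩
        show s ++ (X' ++ p') = w
        rw [← e1', h3]

theorem star_of_nset {g f w : List α} (hw : w ∈ Nset C l r g f) :
    l ++ (g ++ (w ++ (f ++ r))) ∈ FC.Star C := by
  obtain ⟨x, p, s, y, hx, hy, hp, hs, e1, e2, hc⟩ := hw
  have h : l ++ (g ++ (w ++ (f ++ r))) = x ++ ((p ++ w ++ s) ++ y) := by
    rw [e2, ← List.append_assoc, e1]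
    simp only [List.append_assoc]
  rw [h]
  exact star_append hx (star_append (star_of_mem hc) hy)

theorem star_of_fact {g f w : List α} {t : List α × List α × List α}
    (ht : t ∈ Facts (Aset C l g) (FC.Star C) (Bset C r f) w) :
    l ++ (g ++ (w ++ (f ++ r))) ∈ FC.Star C := by
  obtain ⟨⟨x, p, hx, hp, e1, c1⟩, hK, ⟨s, y, hy, hs, e2, c2⟩, hw⟩ := ht
  have h : l ++ (g ++ (w ++ (f ++ r))) =
      x ++ ((p ++ t.1) ++ (t.2.1 ++ ((t.2.2 ++ s) ++ y))) := by
    rw [e2, ← List.append_assoc, e1, ← hw]
    simp only [List.append_assoc]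
  rw [h]
  exact star_append hx (star_append (star_of_mem c1)
    (star_append hK (star_append (star_of_mem c2) hy)))

/-- A covered word has no factorization. -/
theorem cover_no (hC : IsCode C) {g f w : List α} (hw : w ∈ Nset C l r g f)
    {t : List α × List α × List α} (ht : t ∈ Facts (Aset C l g) (FC.Star C) (Bset C r f) w) :
    False := by
  obtain ⟨x, p, s, y, hx, hy, hp, hs, e1, e2, hc⟩ := hw
  obtain ⟨⟨x', p', hx', hp', e1', c1⟩, hK, ⟨s', y', hy', hs', e2', c2⟩, hw⟩ := ht
  have l1 := congrArg List.length e1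
  have l2 := congrArg List.length (e1'.symm.trans e1)
  have l3 := congrArg List.length (e2'.symm.trans e2)
  have l4 := congrArg List.length hw
  have hp1 : 0 < p.length := List.length_pos_iff.2 hp
  have hs1 : 0 < s.length := List.length_pos_iff.2 hs
  have hp2 : 0 < p'.length := List.length_pos_iff.2 hp'
  have hs2 : 0 < s'.length := List.length_pos_iff.2 hs'
  have key := cut α C hC (x' ++ (p' ++ t.1)) (t.2.1 ++ ((t.2.2 ++ s') ++ y')) x (p ++ w ++ s) y
    (star_append hx' (star_of_mem c1)) (star_append hK (star_append (star_of_mem c2) hy')) hx hc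
    hy (by
      calc x' ++ (p' ++ t.1) ++ (t.2.1 ++ (t.2.2 ++ s' ++ y'))
          = (x' ++ p') ++ (t.1 ++ (t.2.1 ++ t.2.2)) ++ (s' ++ y') := by
            simp only [List.append_assoc]
        _ = (x ++ p) ++ w ++ (s ++ y) := by rw [← e1', ← e2', e1, e2, hw]
        _ = x ++ (p ++ w ++ s ++ y) := by simp only [List.append_assoc])
  simp only [List.length_append] at l1 l2 l3 l4 key
  omega

private theorem fact_le (hC : IsCode C) {g f w : List α} {t t' : List α × List α × List α}
    (ht : t ∈ Facts (Aset C l g) (FC.Star C) (Bset C r f) w)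
    (ht' : t' ∈ Facts (Aset C l g) (FC.Star C) (Bset C r f) w) :
    t'.1.length ≤ t.1.length ∧ t'.2.2.length ≤ t.2.2.length := by
  obtain ⟨⟨x, p, hx, hp, e1, c1⟩, hK, ⟨s, y, hy, hs, e2, c2⟩, hw⟩ := ht
  obtain ⟨⟨x', p', hx', hp', e1', c1'⟩, hK', ⟨s', y', hy', hs', e2', c2'⟩, hw'⟩ := ht'
  have l1 : x'.length + p'.length = x.length + p.length := by
    have := congrArg List.length (e1'.symm.trans e1)
    simpa only [List.length_append] using this
  have l2 : s'.length + y'.length = s.length + y.length := by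
    have := congrArg List.length (e2'.symm.trans e2)
    simpa only [List.length_append] using this
  have l3 : t.1.length + (t.2.1.length + t.2.2.length)
      = t'.1.length + (t'.2.1.length + t'.2.2.length) := by
    have := congrArg List.length (hw.trans hw'.symm)
    simpa only [List.length_append] using this
  have l4 : 0 < p'.length := List.length_pos_iff.2 hp'
  have l5 : 0 < s'.length := List.length_pos_iff.2 hs'
  constructor
  · have h3 : (x ++ (p ++ t.1)) ++ (t.2.1 ++ ((t.2.2 ++ s) ++ y))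
        = x' ++ ((p' ++ t'.1) ++ (t'.2.1 ++ ((t'.2.2 ++ s') ++ y'))) := by
      calc (x ++ (p ++ t.1)) ++ (t.2.1 ++ ((t.2.2 ++ s) ++ y))
          = (x ++ p) ++ (t.1 ++ (t.2.1 ++ t.2.2)) ++ (s ++ y) := by
            simp only [List.append_assoc]
        _ = (x' ++ p') ++ (t'.1 ++ (t'.2.1 ++ t'.2.2)) ++ (s' ++ y') := by
            rw [← e1, ← e2, e1', e2', hw, hw']
        _ = _ := by simp only [List.append_assoc]
    have h4 := cut α C hC _ _ _ _ _ (star_append hx (star_of_mem c1))
      (star_append hK (star_append (star_of_mem c2) hy)) hx' c1'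
      (star_append hK' (star_append (star_of_mem c2') hy')) h3
    simp only [List.length_append] at h4
    omega
  · have h3 : ((x ++ (p ++ t.1)) ++ t.2.1) ++ ((t.2.2 ++ s) ++ y)
        = ((x' ++ (p' ++ t'.1)) ++ t'.2.1) ++ ((t'.2.2 ++ s') ++ y') := by
      calc ((x ++ (p ++ t.1)) ++ t.2.1) ++ ((t.2.2 ++ s) ++ y)
          = (x ++ p) ++ (t.1 ++ (t.2.1 ++ t.2.2)) ++ (s ++ y) := by
            simp only [List.append_assoc]
        _ = (x' ++ p') ++ (t'.1 ++ (t'.2.1 ++ t'.2.2)) ++ (s' ++ y') := by
            rw [← e1, ← e2, e1', e2', hw, hw']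
        _ = _ := by simp only [List.append_assoc]
    have h4 := cut α C hC _ _ _ _ _
      (star_append (star_append hx (star_of_mem c1)) hK)
      (star_append (star_of_mem c2) hy)
      (star_append (star_append hx' (star_of_mem c1')) hK') c2' hy' h3
    simp only [List.length_append] at h4
    omega

theorem fact_uniq (hC : IsCode C) {g f w : List α} {t t' : List α × List α × List α}
    (ht : t ∈ Facts (Aset C l g) (FC.Star C) (Bset C r f) w)
    (ht' : t' ∈ Facts (Aset C l g) (FC.Star C) (Bset C r f) w) : t = t' := by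
  obtain ⟨h1, h2⟩ := fact_le hC ht ht'
  obtain ⟨h3, h4⟩ := fact_le hC ht' ht
  obtain ⟨u, c, v⟩ := t
  obtain ⟨u', c', v'⟩ := t'
  obtain ⟨hA, hK, hB, hw⟩ := ht
  obtain ⟨hA', hK', hB', hw'⟩ := ht'
  simp only at h1 h2 h3 h4 hw hw'
  obtain ⟨e1, e2⟩ := List.append_inj (hw.trans hw'.symm) (le_antisymm h3 h1)
  obtain ⟨e3, e4⟩ := List.append_inj' e2 (le_antisymm h4 h2)
  rw [e1, e3, e4]

theorem aset_fin (hF : C.Finite) (g : List α) : (Aset C l g).Finite := by
  refine (hF.biUnion (t := fun c => {v | v ∈ c.tails}) (fun c _ => ?_)).subset ?_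
  · exact (List.finite_toSet c.tails)
  · rintro v ⟨x, p, hx, hp, h, hc⟩
    refine Set.mem_biUnion hc ?_
    show v ∈ (p ++ v).tails
    rw [List.mem_tails]
    exact List.suffix_append p v

theorem bset_fin (hF : C.Finite) (f : List α) : (Bset C r f).Finite := by
  refine (hF.biUnion (t := fun c => {v | v ∈ c.inits}) (fun c _ => ?_)).subset ?_
  · exact (List.finite_toSet c.inits)
  · rintro v ⟨s, y, hy, hs, h, hc⟩
    refine Set.mem_biUnion hc ?_
    show v ∈ (v ++ s).inits
    rw [List.mem_inits]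
    exact List.prefix_append v s

theorem nset_fin (hF : C.Finite) (g f : List α) : (Nset C l r g f).Finite := by
  refine (hF.biUnion
    (t := fun c => {v | v ∈ (c.tails.map List.inits).flatten}) (fun c _ => ?_)).subset ?_
  · exact (List.finite_toSet _)
  · rintro u ⟨x, p, s, y, hx, hy, hp, hs, h1, h2, hc⟩
    refine Set.mem_biUnion hc ?_
    show u ∈ (((p ++ u ++ s).tails).map List.inits).flatten
    rw [List.mem_flatten]
    refine ⟨(u ++ s).inits, List.mem_map.2 ⟨u ++ s, ?_, rfl⟩, ?_⟩
    · rw [List.mem_tails, List.append_assoc]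
      exact List.suffix_append p _
    · rw [List.mem_inits]
      exact List.prefix_append u s

theorem facts_union {S K P P' : Set (List α)} {w : List α} {t : List α × List α × List α} :
    t ∈ Facts S K (P ∪ P') w ↔ t ∈ Facts S K P w ∨ t ∈ Facts S K P' w := by
  constructor
  · rintro ⟨h1, h2, h3 | h3, h4⟩
    · exact Or.inl ⟨h1, h2, h3, h4⟩
    · exact Or.inr ⟨h1, h2, h3, h4⟩
  · rintro (⟨h1, h2, h3, h4⟩ | ⟨h1, h2, h3, h4⟩)
    · exact ⟨h1, h2, Or.inl h3, h4⟩
    · exact ⟨h1, h2, Or.inr h3, h4⟩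

/-- The partition. -/
theorem two_tiles {r' : List α} (hS : Two C l r r') (g f : List α) :
    Tiles C (Aset C l g) (Bset C r f ∪ Bset C r' f) (Nset C l r g f ∪ Nset C l r' g f) := by
  intro w
  have hu : ∀ {P Q : Prop}, (P → l ++ (g ++ (w ++ (f ++ r))) ∈ FC.Star C) →
      (Q → l ++ (g ++ (w ++ (f ++ r'))) ∈ FC.Star C) → P → Q → False := by
    intro P Q hP hQ p q
    refine hS.uniq (g ++ (w ++ f)) ⟨?_, ?_⟩
    · simpa only [List.append_assoc] using hP p
    · simpa only [List.append_assoc] using hQ q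
  refine ⟨fun hw => ?_, fun hw => ?_⟩
  · ext t
    simp only [Set.mem_empty_iff_false, iff_false]
    intro ht
    rcases facts_union.1 ht with ht | ht <;> rcases hw with hw | hw
    · exact cover_no hS.code hw ht
    · exact hu star_of_fact star_of_nset ht hw
    · exact hu star_of_nset star_of_fact hw ht
    · exact cover_no hS.code hw ht
  · have hex : ∃ t, t ∈ Facts (Aset C l g) (FC.Star C) (Bset C r f ∪ Bset C r' f) w := by
      rcases hS.comp (g ++ (w ++ f)) with h | h
      · rcases cover_or hS.code hS.lne hS.rne (g := g) (f := f) (w := w)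
          (by simpa only [List.append_assoc] using h) with h1 | ⟨t, ht⟩
        · exact absurd (Or.inl h1) hw
        · exact ⟨t, facts_union.2 (Or.inl ht)⟩
      · rcases cover_or hS.code hS.lne hS.rne' (g := g) (f := f) (w := w)
          (by simpa only [List.append_assoc] using h) with h1 | ⟨t, ht⟩
        · exact absurd (Or.inr h1) hw
        · exact ⟨t, facts_union.2 (Or.inr ht)⟩
    obtain ⟨t, ht⟩ := hex
    refine ⟨t, ht, fun t' ht' => ?_⟩
    rcases facts_union.1 ht with ht | ht <;> rcases facts_union.1 ht' with ht' | ht'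
    · exact fact_uniq hS.code ht' ht
    · exact (hu star_of_fact star_of_fact ht ht').elim
    · exact (hu star_of_fact star_of_fact ht' ht).elim
    · exact fact_uniq hS.code ht' ht

end

end Pool.Agent.H35.FY
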