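import Pool.Agent.H35.FY.Base

/-!
# The commutative images at two real points
-/

set_option autoImplicit false

namespace Pool.Agent.H35.FY

open Finset
open Pool.Agent.H35.FC (IsCode Facts Tiles gf SGf)

section
variable {α : Type} [DecidableEq α]

/-- The weight of a word, the letter `y` counts `1`, the other letters count `ε`. -/
noncomputable def ew (y : α) (ε : ℝ) (w : List α) : ℝ :=
  (w.map (fun x => if x = y then 1 else ε)).prod

theorem ew_pos {y : α} {ε : ℝ} (hε : 0 < ε) (w : List α) : 0 < ew y ε w := by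
  induction w with
  | nil => simp [ew]
  | cons x w ih =>
    have : ew y ε (x :: w) = (if x = y then 1 else ε) * ew y ε w := by simp [ew]
    rw [this]
    refine mul_pos ?_ ih
    split_ifs
    · norm_num
    · exact hε

theorem ew_zero {y : α} {ε : ℝ} {w : List α} (h : w.count y = 0) : ew y ε w = ε ^ w.length := by
  induction w with
  | nil => simp [ew]
  | cons x w ih =>
    have h1 : ew y ε (x :: w) = (if x = y then 1 else ε) * ew y ε w := by simp [ew]
    have hx : x ≠ y := by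
      rintro rfl
      rw [List.count_cons_self] at h
      omega
    rw [List.count_cons_of_ne (by simpa using hx)] at h
    rw [h1, if_neg hx, ih h, List.length_cons, pow_succ]
    ring

/-- Evaluation at `y ↦ Y`, all other letters `↦ ε`. -/
noncomputable def ev (y : α) (ε Y : ℝ) : MvPolynomial α ℤ →+* ℝ :=
  MvPolynomial.eval₂Hom (Int.castRingHom ℝ) (fun x => if x = y then Y else ε)

theorem ev_X (y : α) (ε Y : ℝ) (x : α) :
    ev y ε Y (MvPolynomial.X x) = if x = y then Y else ε := by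
  simp [ev]

theorem ev_word (y : α) (ε Y : ℝ) (w : List α) :
    ev y ε Y ((w.map MvPolynomial.X).prod) = ew y ε w * Y ^ (w.count y) := by
  induction w with
  | nil => simp [ew]
  | cons x w ih =>
    have h1 : ew y ε (x :: w) = (if x = y then 1 else ε) * ew y ε w := by simp [ew]
    rw [List.map_cons, List.prod_cons, map_mul, ih, ev_X, h1]
    by_cases h : x = y
    · subst h
      rw [if_pos rfl, if_pos rfl, List.count_cons_self, pow_succ]
      ring
    · rw [if_neg h, if_neg h, List.count_cons_of_ne (by simpa using h)]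
      ring

theorem ev_gf (y : α) (ε Y : ℝ) (L : Finset (List α)) :
    ev y ε Y (gf L) = ∑ w ∈ L, ew y ε w * Y ^ (w.count y) := by
  unfold gf
  rw [map_sum]
  exact Finset.sum_congr rfl fun w _ => ev_word y ε Y w

/-- The part of degree `i`. -/
noncomputable def vi (y : α) (ε : ℝ) (i : ℕ) (L : Finset (List α)) : ℝ :=
  ∑ w ∈ L, if w.count y = i then ew y ε w else 0

theorem ev_gf2 (y : α) (ε Y : ℝ) {L : Finset (List α)} (h : ∀ w ∈ L, w.count y ≤ 2) :
    ev y ε Y (gf L) = vi y ε 0 L + vi y ε 1 L * Y + vi y ε 2 L * Y ^ 2 := by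
  rw [ev_gf, vi, vi, vi, Finset.sum_mul, Finset.sum_mul, ← Finset.sum_add_distrib,
    ← Finset.sum_add_distrib]
  refine Finset.sum_congr rfl fun w hw => ?_
  have h2 := h w hw
  have h3 : w.count y = 0 ∨ w.count y = 1 ∨ w.count y = 2 := by omega
  rcases h3 with h3 | h3 | h3 <;> rw [h3] <;> norm_num

theorem ev_gf1 (y : α) (ε Y : ℝ) {L : Finset (List α)} (h : ∀ w ∈ L, w.count y ≤ 1) :
    ev y ε Y (gf L) = vi y ε 0 L + vi y ε 1 L * Y := by
  rw [ev_gf, vi, vi, Finset.sum_mul, ← Finset.sum_add_distrib]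
  refine Finset.sum_congr rfl fun w hw => ?_
  have h2 := h w hw
  have h3 : w.count y = 0 ∨ w.count y = 1 := by omega
  rcases h3 with h3 | h3 <;> rw [h3] <;> norm_num

theorem vi_nonneg {y : α} {ε : ℝ} (hε : 0 < ε) (i : ℕ) (L : Finset (List α)) :
    0 ≤ vi y ε i L := by
  refine Finset.sum_nonneg fun w _ => ?_
  split_ifs
  · exact (ew_pos hε w).le
  · exact le_rfl

theorem vi_pos {y : α} {ε : ℝ} (hε : 0 < ε) {i : ℕ} {L : Finset (List α)} {w : List α}
    (hw : w ∈ L) (hi : w.count y = i) : 0 < vi y ε i L := by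
  refine Finset.sum_pos' (fun w _ => ?_) ⟨w, hw, ?_⟩
  · split_ifs
    · exact (ew_pos hε w).le
    · exact le_rfl
  · rw [if_pos hi]
    exact ew_pos hε w

theorem vi_lt {y : α} {ε : ℝ} (hε : 0 < ε) {L M : Finset (List α)}
    (h : ∀ v : List α, v.count y = 1 → v ∈ M → v ∈ L)
    (h' : ∃ v : List α, v.count y = 1 ∧ v ∈ L ∧ v ∉ M) : vi y ε 1 M < vi y ε 1 L := by
  obtain ⟨v, hv, hvL, hvM⟩ := h'
  unfold vi
  rw [← Finset.sum_filter, ← Finset.sum_filter]
  refine Finset.sum_lt_sum_of_subset (i := v) ?_ ?_ ?_ (ew_pos hε v) ?_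
  · intro w hw
    rw [Finset.mem_filter] at hw ⊢
    exact ⟨h w hw.2 hw.1, hw.2⟩
  · rw [Finset.mem_filter]
    exact ⟨hvL, hv⟩
  · rw [Finset.mem_filter]
    exact fun h => hvM h.1
  · exact fun w _ _ => (ew_pos hε w).le

theorem ev_pos {y : α} {ε Y : ℝ} (hε : 0 < ε) (hY : 0 < Y) {L : Finset (List α)}
    (h : L.Nonempty) : 0 < ev y ε Y (gf L) := by
  rw [ev_gf]
  exact Finset.sum_pos (fun w _ => mul_pos (ew_pos hε w) (pow_pos hY _)) h

end

/-- A root of the commutative image of `C`, minus one, for a negative value of `y`. -/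
theorem exists_root {c0 c1 c2 : ℝ} (h0 : c0 < 1) (h1 : 0 ≤ c1) (h2 : 0 < c2) :
    ∃ ρ : ℝ, 0 ≤ ρ ∧ c0 + c1 * (-ρ) + c2 * (-ρ) ^ 2 = 1 := by
  have hD : 0 ≤ c1 ^ 2 + 4 * c2 * (1 - c0) := by
    have : 0 ≤ 4 * c2 * (1 - c0) := by
      apply mul_nonneg
      · linarith
      · linarith
    have h3 := sq_nonneg c1
    linarith
  obtain ⟨s, hs0, hs⟩ : ∃ s : ℝ, 0 ≤ s ∧ s ^ 2 = c1 ^ 2 + 4 * c2 * (1 - c0) :=
    ⟨Real.sqrt _, Real.sqrt_nonneg _, Real.sq_sqrt hD⟩
  refine ⟨(c1 + s) / (2 * c2), ?_, ?_⟩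
  · apply div_nonneg
    · linarith
    · linarith
  · have h3 : c2 ≠ 0 := h2.ne'
    field_simp
    linear_combination hs

theorem exists_eps (m n : ℕ) : ∃ ε : ℝ, 0 < ε ∧ (m : ℝ) * ε < 1 ∧ (n : ℝ) * ε < 1 := by
  have hc0 : (0 : ℝ) ≤ (m : ℝ) := Nat.cast_nonneg m
  have ha0 : (0 : ℝ) ≤ (n : ℝ) := Nat.cast_nonneg n
  have hp : (0 : ℝ) < (n : ℝ) + m + 1 := by linarith
  refine ⟨1 / ((n : ℝ) + m + 1), one_div_pos.2 hp, ?_, ?_⟩
  · rw [mul_one_div, div_lt_one hp]
    linarith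
  · rw [mul_one_div, div_lt_one hp]
    linarith

theorem one_sub_ne {α : Type} [Fintype α] :
    (1 - ∑ x : α, (MvPolynomial.X x : MvPolynomial α ℤ)) ≠ 0 := by
  intro h
  have h1 := congrArg MvPolynomial.constantCoeff h
  simp at h1

/-- Step 3, the analytic part. -/
theorem anaP (hgf : SGf) {α : Type} [Fintype α] [DecidableEq α] (C : Finset (List α))
    (hC : IsCode (C : Set (List α))) (y : α) (h2 : ∀ w ∈ C, w.count y ≤ 2)
    (h2' : ∃ w ∈ C, w.count y = 2) (A A' B B' : Finset (List α))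
    (t1 : ∃ N : Finset (List α), Tiles (C : Set (List α)) A B N)
    (t2 : ∃ N : Finset (List α), Tiles (C : Set (List α)) A B' N)
    (t3 : ∃ N : Finset (List α), Tiles (C : Set (List α)) A' B N)
    (t4 : ∃ N : Finset (List α), Tiles (C : Set (List α)) A' B' N)
    (a1 : ∀ w ∈ A, w.count y ≤ 1) (a1' : ∀ w ∈ A', w.count y ≤ 1)
    (b1 : ∀ w ∈ B, w.count y ≤ 1) (b1' : ∀ w ∈ B', w.count y ≤ 1)
    (sA : ∀ v : List α, v.count y = 1 → v ∈ A' → v ∈ A)
    (sA' : ∃ v : List α, v.count y = 1 ∧ v ∈ A ∧ v ∉ A')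
    (sB : ∀ v : List α, v.count y = 1 → v ∈ B' → v ∈ B)
    (sB' : ∃ v : List α, v.count y = 1 ∧ v ∈ B ∧ v ∉ B') : False := by
  obtain ⟨N1, t1⟩ := t1
  obtain ⟨N2, t2⟩ := t2
  obtain ⟨N3, t3⟩ := t3
  obtain ⟨N4, t4⟩ := t4
  have g1 := hgf α C A B N1 hC t1
  have g2 := hgf α C A B' N2 hC t2
  have g3 := hgf α C A' B N3 hC t3
  have g4 := hgf α C A' B' N4 hC t4
  -- the constant `ε`
  obtain ⟨ε, hε, hεC, hεα⟩ := exists_eps C.card (Fintype.card α)
  have hcard : (1 : ℝ) ≤ Fintype.card α := by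
    have : 0 < Fintype.card α := Fintype.card_pos_iff.2 ⟨y⟩
    exact_mod_cast this
  have hcC : (1 : ℝ) ≤ C.card := by
    obtain ⟨w, hw, -⟩ := h2'
    have : 0 < C.card := Finset.card_pos.2 ⟨w, hw⟩
    exact_mod_cast this
  have hε1 : ε ≤ 1 := by nlinarith
  obtain ⟨θ, hθ⟩ : ∃ θ : ℝ, θ = 1 - ((Fintype.card α : ℝ) - 1) * ε := ⟨_, rfl⟩
  have hθ0 : 0 < θ := by nlinarith
  have hsum : ∀ Y : ℝ, ev y ε Y (1 - ∑ x : α, (MvPolynomial.X x : MvPolynomial α ℤ)) = θ - Y := by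
    intro Y
    rw [map_sub, map_one, map_sum]
    have : ∀ x : α, ev y ε Y (MvPolynomial.X x) = ε + if x = y then Y - ε else 0 := by
      intro x
      rw [ev_X]
      split_ifs <;> ring
    rw [Finset.sum_congr rfl fun x _ => this x, Finset.sum_add_distrib, Finset.sum_ite_eq',
      if_pos (Finset.mem_univ y), Finset.sum_const, Finset.card_univ, nsmul_eq_mul, hθ]
    ring
  -- the values of `C`
  have hCv : ∀ Y : ℝ, ev y ε Y (gf C) = vi y ε 0 C + vi y ε 1 C * Y + vi y ε 2 C * Y ^ 2 :=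
    fun Y => ev_gf2 y ε Y h2
  have hC0 : vi y ε 0 C < 1 := by
    refine lt_of_le_of_lt ?_ hεC
    have : vi y ε 0 C ≤ ∑ _w ∈ C, ε := by
      refine Finset.sum_le_sum fun w hw => ?_
      split_ifs with h
      · rw [ew_zero h]
        have hw0 : w ≠ [] := by
          rintro rfl
          exact hC.1 (by exact_mod_cast hw)
        have := List.length_pos_iff.2 hw0
        calc ε ^ w.length ≤ ε ^ 1 := pow_le_pow_of_le_one hε.le hε1 (by omega)
          _ = ε := pow_one ε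
      · exact hε.le
    rwa [Finset.sum_const, nsmul_eq_mul] at this
  have hC2 : 0 < vi y ε 2 C := by
    obtain ⟨w, hw, hw2⟩ := h2'
    exact vi_pos hε hw hw2
  obtain ⟨ρ, hρ0, hρ⟩ := exists_root hC0 (vi_nonneg hε 1 C) hC2
  rw [← hCv] at hρ
  have hcθ : ev y ε θ (gf C) = 1 := by
    have := congrArg (ev y ε θ) g1
    rw [map_mul, hsum, sub_self, zero_mul, map_sub, map_one] at this
    linarith
  -- the product does not depend on the contexts, at `θ`
  have hprod : ∀ {S P N S' P' N' : Finset (List α)},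
      1 - gf C = (1 - ∑ x : α, (MvPolynomial.X x : MvPolynomial α ℤ)) *
        ((1 - gf C) * gf N + gf S * gf P) →
      1 - gf C = (1 - ∑ x : α, (MvPolynomial.X x : MvPolynomial α ℤ)) *
        ((1 - gf C) * gf N' + gf S' * gf P') →
      ev y ε θ (gf S) * ev y ε θ (gf P) = ev y ε θ (gf S') * ev y ε θ (gf P') := by
    intro S P N S' P' N' h h'
    have h3 := mul_left_cancel₀ (one_sub_ne (α := α)) (h.symm.trans h')
    have h4 := congrArg (ev y ε θ) h3
    rw [map_add, map_add, map_mul, map_mul, map_mul, map_mul, map_sub, map_one, hcθ] at h4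
    linear_combination h4
  -- the product is zero at `-ρ`
  have hzero : ∀ {S P N : Finset (List α)},
      1 - gf C = (1 - ∑ x : α, (MvPolynomial.X x : MvPolynomial α ℤ)) *
        ((1 - gf C) * gf N + gf S * gf P) →
      ev y ε (-ρ) (gf S) * ev y ε (-ρ) (gf P) = 0 := by
    intro S P N h
    have h4 := congrArg (ev y ε (-ρ)) h
    rw [map_mul, hsum, map_add, map_mul, map_mul, map_sub, map_one, hρ] at h4
    have h5 : (θ - -ρ) ≠ 0 := by
      have : 0 < θ - -ρ := by linarith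
      exact this.ne'
    have h6 : (θ - -ρ) * (ev y ε (-ρ) (gf S) * ev y ε (-ρ) (gf P)) = 0 := by
      linear_combination -h4
    exact (mul_eq_zero.1 h6).resolve_left h5
  -- the differences
  have hA0 : A.Nonempty := by
    obtain ⟨v, -, hv, -⟩ := sA'
    exact ⟨v, hv⟩
  have hB0 : B.Nonempty := by
    obtain ⟨v, -, hv, -⟩ := sB'
    exact ⟨v, hv⟩
  have hAθ : ev y ε θ (gf A) = ev y ε θ (gf A') :=
    mul_right_cancel₀ (ev_pos hε hθ0 hB0).ne' (hprod g1 g3)
  have hBθ : ev y ε θ (gf B) = ev y ε θ (gf B') :=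
    mul_left_cancel₀ (ev_pos hε hθ0 hA0).ne' (hprod g1 g2)
  have hAδ := vi_lt (ε := ε) hε sA sA'
  have hBδ := vi_lt (ε := ε) hε sB sB'
  have z1 := hzero g1
  have z2 := hzero g2
  have z3 := hzero g3
  have z4 := hzero g4
  rw [ev_gf1 y ε _ a1, ev_gf1 y ε _ a1'] at hAθ
  rw [ev_gf1 y ε _ b1, ev_gf1 y ε _ b1'] at hBθ
  rw [ev_gf1 y ε _ a1, ev_gf1 y ε _ b1] at z1
  rw [ev_gf1 y ε _ a1, ev_gf1 y ε _ b1'] at z2
  rw [ev_gf1 y ε _ a1', ev_gf1 y ε _ b1] at z3
  rw [ev_gf1 y ε _ a1', ev_gf1 y ε _ b1'] at z4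
  have hdA : (vi y ε 0 A + vi y ε 1 A * (-ρ)) - (vi y ε 0 A' + vi y ε 1 A' * (-ρ)) ≠ 0 := by
    have : (vi y ε 0 A + vi y ε 1 A * (-ρ)) - (vi y ε 0 A' + vi y ε 1 A' * (-ρ))
        = -((θ + ρ) * (vi y ε 1 A - vi y ε 1 A')) := by
      linear_combination hAθ
    rw [this, neg_ne_zero]
    refine mul_ne_zero ?_ ?_
    · have : 0 < θ + ρ := by linarith
      exact this.ne'
    · exact (sub_pos.2 hAδ).ne'
  have hdB : (vi y ε 0 B + vi y ε 1 B * (-ρ)) - (vi y ε 0 B' + vi y ε 1 B' * (-ρ)) ≠ 0 := by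
    have : (vi y ε 0 B + vi y ε 1 B * (-ρ)) - (vi y ε 0 B' + vi y ε 1 B' * (-ρ))
        = -((θ + ρ) * (vi y ε 1 B - vi y ε 1 B')) := by
      linear_combination hBθ
    rw [this, neg_ne_zero]
    refine mul_ne_zero ?_ ?_
    · have : 0 < θ + ρ := by linarith
      exact this.ne'
    · exact (sub_pos.2 hBδ).ne'
  apply mul_ne_zero hdA hdB
  linear_combination z1 - z2 - z3 + z4

end Pool.Agent.H35.FY
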