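import Pool.Agent.H35.FY.Base

/-!
# Two left contexts with different completions
-/

set_option autoImplicit false

namespace Pool.Agent.H35.FY

open Pool.Agent.H35.FC (IsCode Facts Tiles star_nil star_append star_of_mem split cut)
open Pool.Agent.H35.FS (Setup RC LC Aset Bset Nset fac rc_of_aset lc_of_bset rc_star lc_star
  nil_mem_aset partP ncut acut)

/-- Words of `C*` after a complete context. -/
theorem facA {α : Type} {C : Set (List α)} {l r : List α} (hS : Setup C l r) {g w : List α}
    (hg : RC C l g) (hw : RC C l (g ++ w)) :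
    ∃ s ∈ Aset C l g, ∃ c ∈ FC.Star C, s ++ c = w := by
  rw [RC, ← List.append_assoc] at hw
  rcases split α C (l ++ g) w hw with ⟨_, h1⟩ | ⟨X, p, s, Y, hX, hY, hp, hs, hc, e1, e2⟩
  · exact ⟨[], (nil_mem_aset hS g).2 hg, w, h1, by simp⟩
  · exact ⟨s, ⟨X, p, hX, hp, e1, hc⟩, Y, hY, e2.symm⟩

/-- The completions after a longer context. -/
theorem mem_aset_append {α : Type} {C : Set (List α)} {l g z v : List α} :
    v ∈ Aset C l (g ++ z) ↔ z ++ v ∈ Aset C l g ∨
      ∃ z1 z2, z = z1 ++ z2 ∧ z2 ≠ [] ∧ RC C l (g ++ z1) ∧ z2 ++ v ∈ C := by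
  constructor
  · rintro ⟨x, p, hx, hp, e, hc⟩
    rw [← List.append_assoc] at e
    rcases List.append_eq_append_iff.1 e with ⟨t, e1, e2⟩ | ⟨t, e1, e2⟩
    · -- `x = l ++ g ++ t`, `z = t ++ p`
      right
      refine ⟨t, p, e2, hp, ?_, hc⟩
      rw [RC, ← List.append_assoc, ← e1]
      exact hx
    · -- `l ++ g = x ++ t`, `p = t ++ z`
      rcases eq_or_ne t [] with rfl | ht
      · right
        refine ⟨[], p, by simpa using e2.symm, hp, ?_, hc⟩
        rw [List.append_nil, RC, e1, List.append_nil]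
        exact hx
      · left
        refine ⟨x, t, hx, ht, e1, ?_⟩
        rw [← List.append_assoc, ← e2]
        exact hc
  · rintro (⟨x, p, hx, hp, e, hc⟩ | ⟨z1, z2, rfl, hz, hr, hc⟩)
    · refine ⟨x, p ++ z, hx, by simp [hp], ?_, by rwa [List.append_assoc]⟩
      rw [← List.append_assoc, e, List.append_assoc]
    · exact ⟨l ++ (g ++ z1), z2, hr, hz, by simp only [List.append_assoc], hc⟩

/-- Two contexts whose completions agree below the length of `x0`, and not for `x0`. -/
theorem left_aux {α : Type} [DecidableEq α] {C : Set (List α)} {y : α} (hH : Hyp C y)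
    {g g' x0 : List α} (h1 : x0 ∈ Aset C [y] (g ++ [y])) (h2 : x0 ∉ Aset C [y] (g' ++ [y]))
    (h3 : ∀ z : List α, z.length < x0.length →
      (z ∈ Aset C [y] (g ++ [y]) ↔ z ∈ Aset C [y] (g' ++ [y]))) :
    ∀ v : List α, v.count y = 1 →
      (v ∈ Aset C [y] (g ++ [y] ++ (x0 ++ [y])) ↔
        (v ∈ Aset C [y] (g' ++ [y] ++ (x0 ++ [y])) ∨ y :: v ∈ C)) ∧
      ¬ (v ∈ Aset C [y] (g' ++ [y] ++ (x0 ++ [y])) ∧ y :: v ∈ C) := by
  have hS := hH.su
  have hrc : ∀ z : List α, z.length < x0.length →
      (RC C [y] (g ++ [y] ++ z) ↔ RC C [y] (g' ++ [y] ++ z)) := by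
    intro z hz
    constructor
    · intro h
      obtain ⟨s, hs, c, hc, rfl⟩ := facA hS (hH.rc g) h
      rw [← List.append_assoc]
      refine rc_star (rc_of_aset ((h3 s ?_).1 hs)) hc
      rw [List.length_append] at hz
      omega
    · intro h
      obtain ⟨s, hs, c, hc, rfl⟩ := facA hS (hH.rc g') h
      rw [← List.append_assoc]
      refine rc_star (rc_of_aset ((h3 s ?_).2 hs)) hc
      rw [List.length_append] at hz
      omega
  have hr0 : RC C [y] (g ++ [y] ++ x0) := rc_of_aset h1
  have hr0' : ¬ RC C [y] (g' ++ [y] ++ x0) := by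
    intro h
    obtain ⟨s, hs, c, hc, e⟩ := facA hS (hH.rc g') h
    rcases eq_or_ne c [] with rfl | hcn
    · rw [List.append_nil] at e
      rw [e] at hs
      exact h2 hs
    · have hlen : s.length < x0.length := by
        rw [← e, List.length_append]
        have := List.length_pos_iff.2 hcn
        omega
      have hs' := (h3 s hlen).2 hs
      have hl0 : LC C [y] [] := by simpa [LC] using hS.rmem
      refine acut hS (g := g ++ [y]) (v1 := s) (v2 := c) (t := []) (f := [])
        (by rw [e]; exact h1) hcn (rc_of_aset hs') ?_ (by simpa using hl0)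
      rw [List.append_nil]
      exact lc_star hc hl0
  -- the completions with one `y`
  have hA : ∀ (k : List α) (v : List α), v.count y = 1 →
      (v ∈ Aset C [y] (k ++ [y] ++ (x0 ++ [y])) ↔
        ((RC C [y] (k ++ [y] ++ x0) ∧ y :: v ∈ C) ∨
          ∃ z1 z2, x0 ++ [y] = z1 ++ z2 ∧ z1.length < x0.length ∧
            RC C [y] (k ++ [y] ++ z1) ∧ z2 ++ v ∈ C)) := by
    intro k v hv
    rw [mem_aset_append]
    constructor
    · rintro (h | ⟨z1, z2, e, hz, hr, hc⟩)
      · exfalso
        have h4 := A_cnt hH.d2 h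
        rw [List.count_append, List.count_append, List.count_singleton_self] at h4
        omega
      · rcases lt_or_ge z1.length x0.length with h | h
        · exact Or.inr ⟨z1, z2, e, h, hr, hc⟩
        · left
          have l1 := congrArg List.length e
          simp only [List.length_append, List.length_cons, List.length_nil] at l1
          have hz' := List.length_pos_iff.2 hz
          obtain ⟨e1, e2⟩ := List.append_inj e (by omega)
          subst e1 e2
          exact ⟨hr, hc⟩
    · rintro (⟨hr, hc⟩ | ⟨z1, z2, e, hz, hr, hc⟩)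
      · exact Or.inr ⟨x0, [y], rfl, by simp, hr, hc⟩
      · refine Or.inr ⟨z1, z2, e, ?_, hr, hc⟩
        rintro rfl
        have l1 := congrArg List.length e
        simp only [List.length_append, List.length_cons, List.length_nil] at l1
        omega
  intro v hv
  rw [hA g v hv, hA g' v hv]
  have hE : (∃ z1 z2, x0 ++ [y] = z1 ++ z2 ∧ z1.length < x0.length ∧
      RC C [y] (g ++ [y] ++ z1) ∧ z2 ++ v ∈ C) ↔
      (∃ z1 z2, x0 ++ [y] = z1 ++ z2 ∧ z1.length < x0.length ∧
      RC C [y] (g' ++ [y] ++ z1) ∧ z2 ++ v ∈ C) := by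
    constructor
    · rintro ⟨z1, z2, e, hz, hr, hc⟩
      exact ⟨z1, z2, e, hz, (hrc z1 hz).1 hr, hc⟩
    · rintro ⟨z1, z2, e, hz, hr, hc⟩
      exact ⟨z1, z2, e, hz, (hrc z1 hz).2 hr, hc⟩
  refine ⟨?_, ?_⟩
  · rw [hE]
    constructor
    · rintro (⟨-, h⟩ | h)
      · exact Or.inr h
      · exact Or.inl (Or.inr h)
    · rintro ((⟨h, -⟩ | h) | h)
      · exact absurd h hr0'
      · exact Or.inr h
      · exact Or.inl ⟨hr0, h⟩
  · rintro ⟨⟨h, -⟩ | h, hy⟩
    · exact hr0' h
    · obtain ⟨z1, z2, e, hz, hr, hc⟩ := hE.2 h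
      have key := cut α C hS.code ([y] ++ (g ++ [y] ++ x0)) (y :: v) ([y] ++ (g ++ [y] ++ z1))
        (z2 ++ v) [] hr0 (star_of_mem hy) hr hc star_nil (by
          have : x0 ++ (y :: v) = z1 ++ (z2 ++ v) := by
            rw [← List.append_assoc, ← e]
            simp
          simp only [List.append_assoc, List.append_nil, this])
      have l1 := congrArg List.length e
      simp only [List.length_append, List.length_cons, List.length_nil] at l1 key
      have hv1 : 0 < v.length := by
        rw [List.length_pos_iff]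
        rintro rfl
        simp at hv
      omega

/-- The words with one `y` which complete two contexts, compared. -/
theorem leftP {α : Type} [DecidableEq α] {C : Set (List α)} {y : α} (hH : Hyp C y) :
    (∀ g g' : List α, Aset C [y] (g ++ [y]) = Aset C [y] (g' ++ [y])) ∨
      ∃ G G' : List α, ∀ v : List α, v.count y = 1 →
        (v ∈ Aset C [y] (G ++ [y]) ↔ (v ∈ Aset C [y] (G' ++ [y]) ∨ y :: v ∈ C)) ∧
        ¬ (v ∈ Aset C [y] (G' ++ [y]) ∧ y :: v ∈ C) := by
  classical
  by_cases hall : ∀ g g' : List α, Aset C [y] (g ++ [y]) = Aset C [y] (g' ++ [y])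
  · exact Or.inl hall
  right
  push Not at hall
  obtain ⟨g, g', hne⟩ := hall
  have hex : ∃ n, ∃ x : List α, x.length = n ∧
      ¬ (x ∈ Aset C [y] (g ++ [y]) ↔ x ∈ Aset C [y] (g' ++ [y])) := by
    by_contra hcon
    push Not at hcon
    apply hne
    ext x
    exact hcon x.length x rfl
  obtain ⟨x0, hx0, hx1⟩ := Nat.find_spec hex
  have hmin : ∀ z : List α, z.length < x0.length →
      (z ∈ Aset C [y] (g ++ [y]) ↔ z ∈ Aset C [y] (g' ++ [y])) := by
    intro z hz
    rw [hx0] at hz
    by_contra hcon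
    exact Nat.find_min hex hz ⟨z, rfl, hcon⟩
  by_cases h1 : x0 ∈ Aset C [y] (g ++ [y])
  · have h2 : x0 ∉ Aset C [y] (g' ++ [y]) := fun h => hx1 ⟨fun _ => h, fun _ => h1⟩
    refine ⟨g ++ [y] ++ x0, g' ++ [y] ++ x0, fun v hv => ?_⟩
    have := left_aux hH h1 h2 hmin v hv
    simpa only [List.append_assoc] using this
  · have h2 : x0 ∈ Aset C [y] (g' ++ [y]) := by
      by_contra h
      exact hx1 ⟨fun h' => absurd h' h1, fun h' => absurd h' h⟩
    refine ⟨g' ++ [y] ++ x0, g ++ [y] ++ x0, fun v hv => ?_⟩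
    have := left_aux hH h2 h1 (fun z hz => (hmin z hz).symm) v hv
    simpa only [List.append_assoc] using this

end Pool.Agent.H35.FY
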