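import Pool.Agent.H35.FY.Base

/-!
# The mirror image
-/

set_option autoImplicit false

namespace Pool.Agent.H35.FY

open Pool.Agent.H35.FC (IsCode Facts Tiles)
open Pool.Agent.H35.FS (Setup RC LC Aset Bset Nset)

section Rev

variable {α : Type}

theorem mem_rev (C : Set (List α)) (w : List α) :
    w ∈ List.reverse '' C ↔ w.reverse ∈ C := by
  constructor
  · rintro ⟨v, hv, rfl⟩
    rwa [List.reverse_reverse]
  · intro h
    exact ⟨w.reverse, h, List.reverse_reverse w⟩

theorem rev_rev (C : Set (List α)) : List.reverse '' (List.reverse '' C) = C := by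
  ext w
  rw [mem_rev, mem_rev, List.reverse_reverse]

private lemma star_rev_of (C : Set (List α)) (w : List α) (h : w ∈ FC.Star C) :
    w.reverse ∈ FC.Star (List.reverse '' C) := by
  obtain ⟨L, hL, rfl⟩ := h
  refine ⟨(L.map List.reverse).reverse, ?_, ?_⟩
  · intro c hc
    rw [List.mem_reverse, List.mem_map] at hc
    obtain ⟨d, hd, rfl⟩ := hc
    exact ⟨d, hL d hd, rfl⟩
  · rw [List.reverse_flatten]

theorem mem_star_rev (C : Set (List α)) (w : List α) :
    w ∈ FC.Star (List.reverse '' C) ↔ w.reverse ∈ FC.Star C := by
  constructor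
  · intro h
    have := star_rev_of _ _ h
    rwa [rev_rev] at this
  · intro h
    have := star_rev_of _ _ h
    rwa [List.reverse_reverse] at this

theorem code_rev {C : Set (List α)} (h : IsCode C) : IsCode (List.reverse '' C) := by
  refine ⟨?_, ?_⟩
  · rw [mem_rev]
    exact h.1
  · intro L M hL hM he
    have h1 : ∀ N : List (List α), (∀ c ∈ N, c ∈ List.reverse '' C) →
        ∀ c ∈ (N.map List.reverse).reverse, c ∈ C := by
      intro N hN c hc
      rw [List.mem_reverse, List.mem_map] at hc
      obtain ⟨d, hd, rfl⟩ := hc
      exact (mem_rev C d).1 (hN d hd)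
    have h2 : (L.map List.reverse).reverse.flatten = (M.map List.reverse).reverse.flatten := by
      rw [← List.reverse_flatten, ← List.reverse_flatten, he]
    have h3 := h.2 _ _ (h1 L hL) (h1 M hM) h2
    have h4 := List.reverse_injective h3
    exact List.map_injective_iff.2 List.reverse_injective h4

private lemma aset_rev_of {C : Set (List α)} {l g v : List α} (h : v ∈ Aset C l g) :
    v.reverse ∈ Bset (List.reverse '' C) l.reverse g.reverse := by
  obtain ⟨x, p, hx, hp, he, hc⟩ := h
  refine ⟨p.reverse, x.reverse, star_rev_of _ _ hx, ?_, ?_, ?_⟩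
  · simpa using hp
  · have h1 := congrArg List.reverse he
    rwa [List.reverse_append, List.reverse_append] at h1
  · rw [mem_rev, List.reverse_append, List.reverse_reverse, List.reverse_reverse]
    exact hc

private lemma bset_rev_of {C : Set (List α)} {r f v : List α} (h : v ∈ Bset C r f) :
    v.reverse ∈ Aset (List.reverse '' C) r.reverse f.reverse := by
  obtain ⟨s, y, hy, hs, he, hc⟩ := h
  refine ⟨y.reverse, s.reverse, star_rev_of _ _ hy, ?_, ?_, ?_⟩
  · simpa using hs
  · have h1 := congrArg List.reverse he
    rwa [List.reverse_append, List.reverse_append] at h1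
  · rw [mem_rev, List.reverse_append, List.reverse_reverse, List.reverse_reverse]
    exact hc

theorem mem_aset_rev (C : Set (List α)) (r g v : List α) :
    v ∈ Aset (List.reverse '' C) r.reverse g ↔ v.reverse ∈ Bset C r g.reverse := by
  constructor
  · intro h
    have := aset_rev_of h
    rwa [rev_rev, List.reverse_reverse] at this
  · intro h
    have := bset_rev_of h
    rwa [List.reverse_reverse, List.reverse_reverse] at this

theorem mem_bset_rev (C : Set (List α)) (l f v : List α) :
    v ∈ Bset (List.reverse '' C) l.reverse f ↔ v.reverse ∈ Aset C l f.reverse := by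
  constructor
  · intro h
    have := bset_rev_of h
    rwa [rev_rev, List.reverse_reverse] at this
  · intro h
    have := aset_rev_of h
    rwa [List.reverse_reverse, List.reverse_reverse] at this

private lemma nset_rev_of {C : Set (List α)} {l r g f u : List α} (h : u ∈ Nset C l r g f) :
    u.reverse ∈ Nset (List.reverse '' C) r.reverse l.reverse f.reverse g.reverse := by
  obtain ⟨x, p, s, y, hx, hy, hp, hs, he, he', hc⟩ := h
  refine ⟨y.reverse, s.reverse, p.reverse, x.reverse, star_rev_of _ _ hy, star_rev_of _ _ hx,
    ?_, ?_, ?_, ?_, ?_⟩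
  · simpa using hs
  · simpa using hp
  · have h1 := congrArg List.reverse he'
    rwa [List.reverse_append, List.reverse_append] at h1
  · have h1 := congrArg List.reverse he
    rwa [List.reverse_append, List.reverse_append] at h1
  · rw [mem_rev, List.reverse_append, List.reverse_append, List.reverse_reverse,
      List.reverse_reverse, List.reverse_reverse, ← List.append_assoc]
    exact hc

theorem mem_nset_rev (C : Set (List α)) (l r g f u : List α) :
    u ∈ Nset (List.reverse '' C) r.reverse l.reverse g f ↔
      u.reverse ∈ Nset C l r f.reverse g.reverse := by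
  constructor
  · intro h
    have := nset_rev_of h
    rwa [rev_rev, List.reverse_reverse, List.reverse_reverse] at this
  · intro h
    have := nset_rev_of h
    rwa [List.reverse_reverse, List.reverse_reverse, List.reverse_reverse] at this

theorem tiles_rev {C S P : Set (List α)} (h : Tiles (List.reverse '' C) S P ∅) :
    Tiles C (List.reverse '' P) (List.reverse '' S) ∅ := by
  intro w
  refine ⟨fun hw => absurd hw (Set.notMem_empty w), fun _ => ?_⟩
  obtain ⟨⟨x, y, z⟩, ht, huniq⟩ := (h w.reverse).2 (Set.notMem_empty _)
  obtain ⟨hx, hy, hz, he⟩ := ht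
  simp only at hx hy hz he
  refine ⟨(z.reverse, y.reverse, x.reverse), ⟨⟨z, hz, rfl⟩, (mem_star_rev C y).1 hy,
    ⟨x, hx, rfl⟩, ?_⟩, ?_⟩
  · simp only
    have h1 := congrArg List.reverse he
    rw [List.reverse_append, List.reverse_append, List.reverse_reverse] at h1
    rw [← h1, List.append_assoc]
  · rintro ⟨x', y', z'⟩ ⟨hx', hy', hz', he'⟩
    simp only at hx' hy' hz' he'
    have h1 : (z'.reverse, y'.reverse, x'.reverse) = (x, y, z) := by
      apply huniq
      refine ⟨(mem_rev S z').1 hz', (mem_star_rev C _).2 (by rwa [List.reverse_reverse]),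
        (mem_rev P x').1 hx', ?_⟩
      simp only
      rw [← he', List.reverse_append, List.reverse_append, List.append_assoc]
    simp only [Prod.mk.injEq] at h1 ⊢
    obtain ⟨h2, h3, h4⟩ := h1
    rw [← h2, ← h3, ← h4]
    simp only [List.reverse_reverse, and_self]

end Rev

theorem Hyp.rev {α : Type} [DecidableEq α] {C : Set (List α)} {y : α} (hH : Hyp C y) :
    Hyp (List.reverse '' C) y := by
  have h1 : ∀ w, w ∈ FC.Star C → w.reverse ∈ FC.Star (List.reverse '' C) := star_rev_of C
  refine ⟨⟨hH.su.fin.image _, code_rev hH.su.code, ?_, ?_, by simp, by simp, ?_⟩, ?_, ?_, ?_⟩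
  · simpa using h1 _ hH.su.lmem
  · simpa using h1 _ hH.su.lmem
  · intro w
    rw [mem_star_rev]
    have := hH.su.comp w.reverse
    simpa only [List.reverse_append, List.reverse_singleton, List.append_assoc] using this
  · intro w hw
    have := hH.d2 _ ((mem_rev C w).1 hw)
    rwa [List.count_reverse] at this
  · intro g f
    obtain ⟨u, hu⟩ := hH.ne f.reverse g.reverse
    exact ⟨u.reverse, (mem_nset_rev C [y] [y] g f _).2 (by rwa [List.reverse_reverse])⟩
  · intro g f u hu
    have h2 := (mem_nset_rev C [y] [y] (g ++ [y]) (y :: f) u).1 hu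
    have h3 := hH.n0 f.reverse g.reverse u.reverse (by simpa using h2)
    rwa [List.count_reverse] at h3

end Pool.Agent.H35.FY
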