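import Pool.Agent.H35.FY.End
import Pool.Agent.H35.FY.Rev
import Pool.Agent.H35.FY.Left
import Pool.Agent.H35.FY.Ana
import Pool.Agent.H35.FS.Asm

/-!
# Assembly
-/

set_option autoImplicit false

namespace Pool.Agent.H35.FY

open Pool.Agent.H35.FC (IsCode IsPrefixCode Facts Tiles gf SGf STree of_tiles)
open Pool.Agent.H35.FS (Setup RC LC Aset Bset Nset aset_finite bset_finite nset_finite partP
  SDeg SMax st_last setup_of_sync)

theorem mem_bset_of_rev {α : Type} (C : Set (List α)) (y : α) (F v : List α) :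
    v ∈ Bset C [y] (y :: F.reverse) ↔ v.reverse ∈ Aset (List.reverse '' C) [y] (F ++ [y]) := by
  have h := mem_aset_rev C [y] (F ++ [y]) v.reverse
  simpa using h.symm

theorem mem_aset_of_rev {α : Type} (C : Set (List α)) (y : α) (g v : List α) :
    v ∈ Aset C [y] (g ++ [y]) ↔
      v.reverse ∈ Bset (List.reverse '' C) [y] (y :: g.reverse) := by
  have h := mem_bset_rev C [y] (y :: g.reverse) v.reverse
  simpa using h.symm

theorem tilesF {α : Type} {C : Set (List α)} {l r : List α} (hS : Setup C l r) (g f : List α) :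
    ∃ N : Finset (List α), Tiles C (aset_finite hS g).toFinset (bset_finite hS f).toFinset N := by
  refine ⟨(nset_finite hS g f).toFinset, ?_⟩
  simpa only [Set.Finite.coe_toFinset] using partP α C l r hS g f

/-- Step 3. -/
theorem dichP (hgf : SGf) {α : Type} [Fintype α] [DecidableEq α] {C : Finset (List α)} {y : α}
    (hH : Hyp (C : Set (List α)) y) :
    (∀ f f' : List α, Bset (C : Set (List α)) [y] (y :: f) = Bset (C : Set (List α)) [y] (y :: f'))
      ∨ ∀ g g' : List α,
        Aset (C : Set (List α)) [y] (g ++ [y]) = Aset (C : Set (List α)) [y] (g' ++ [y]) := by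
  have hS := hH.su
  rcases leftP hH with h | ⟨G, G', hG⟩
  · exact Or.inr h
  rcases leftP hH.rev with h | ⟨F, F', hF⟩
  · left
    intro f f'
    ext v
    have h1 := mem_bset_of_rev (C : Set (List α)) y f.reverse v
    have h2 := mem_bset_of_rev (C : Set (List α)) y f'.reverse v
    rw [List.reverse_reverse] at h1 h2
    rw [h1, h2, h f.reverse f'.reverse]
  exfalso
  obtain ⟨v0, hv0, hv0'⟩ := hH.d1
  obtain ⟨v1, hv1, hv1'⟩ := hH.rev.d1
  refine anaP hgf C hS.code y (fun w hw => hH.d2 w (by exact_mod_cast hw))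
    ⟨y :: v0, by exact_mod_cast hv0, by rw [List.count_cons_self, hv0']⟩
    (aset_finite hS (G ++ [y])).toFinset (aset_finite hS (G' ++ [y])).toFinset
    (bset_finite hS (y :: F.reverse)).toFinset (bset_finite hS (y :: F'.reverse)).toFinset
    (tilesF hS _ _) (tilesF hS _ _) (tilesF hS _ _) (tilesF hS _ _) ?_ ?_ ?_ ?_ ?_ ?_ ?_ ?_
  · intro w hw
    rw [Set.Finite.mem_toFinset] at hw
    have := A_cnt hH.d2 hw
    omega
  · intro w hw
    rw [Set.Finite.mem_toFinset] at hw
    have := A_cnt hH.d2 hw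
    omega
  · intro w hw
    rw [Set.Finite.mem_toFinset] at hw
    have := B_cnt hH.d2 hw
    omega
  · intro w hw
    rw [Set.Finite.mem_toFinset] at hw
    have := B_cnt hH.d2 hw
    omega
  · intro v hv hvA
    rw [Set.Finite.mem_toFinset] at hvA ⊢
    exact (hG v hv).1.2 (Or.inl hvA)
  · refine ⟨v0, hv0', ?_, ?_⟩
    · rw [Set.Finite.mem_toFinset]
      exact (hG v0 hv0').1.2 (Or.inr hv0)
    · rw [Set.Finite.mem_toFinset]
      exact fun h => (hG v0 hv0').2 ⟨h, hv0⟩
  · intro v hv hvB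
    rw [Set.Finite.mem_toFinset] at hvB ⊢
    rw [mem_bset_of_rev] at hvB ⊢
    exact (hF v.reverse (by rw [List.count_reverse]; exact hv)).1.2 (Or.inl hvB)
  · refine ⟨v1.reverse, by rw [List.count_reverse]; exact hv1', ?_, ?_⟩
    · rw [Set.Finite.mem_toFinset, mem_bset_of_rev, List.reverse_reverse]
      exact (hF v1 hv1').1.2 (Or.inr hv1)
    · rw [Set.Finite.mem_toFinset, mem_bset_of_rev, List.reverse_reverse]
      exact fun h => (hF v1 hv1').2 ⟨h, hv1⟩

/-- Such a code is factorizing. -/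
theorem factP (hgf : SGf) (hdeg : SDeg) {α : Type} [Fintype α] [DecidableEq α]
    {C : Finset (List α)} {l r : List α} (hS : Setup (C : Set (List α)) l r) {y : α}
    (h2 : ∀ w ∈ C, w.count y ≤ 2) :
    ∃ S P : Set (List α), S.Finite ∧ P.Finite ∧ Tiles (C : Set (List α)) S P ∅ := by
  rcases coreP hdeg hS (y := y) (fun w hw => h2 w (by exact_mod_cast hw)) with h | hH
  · exact h
  · rcases dichP hgf hH with h | h
    · exact endP hH h
    · obtain ⟨S, P, hSf, hPf, hT⟩ := endP hH.rev (by
        intro f f'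
        ext v
        have h1 := mem_aset_of_rev (C : Set (List α)) y f.reverse v.reverse
        have h2 := mem_aset_of_rev (C : Set (List α)) y f'.reverse v.reverse
        rw [List.reverse_reverse, List.reverse_reverse] at h1 h2
        rw [← h1, ← h2, h f.reverse f'.reverse])
      exact ⟨_, _, hPf.image _, hSf.image _, tiles_rev hT⟩

theorem assembly (hMax : SMax) (hGf : SGf) (hTree : STree) (hdeg : SDeg)
    {α : Type} [Fintype α] [DecidableEq α] (C : Finset (List α))
    (hC : IsCode (C : Set (List α)))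
    (hmax : ∀ D : Set (List α), IsCode D → (C : Set (List α)) ⊆ D → D = C)
    (hs : ∃ x ∈ FC.Star (C : Set (List α)), ∃ y ∈ FC.Star (C : Set (List α)), ∀ u v,
      u ++ x ++ y ++ v ∈ FC.Star (C : Set (List α)) →
        u ++ x ∈ FC.Star (C : Set (List α)) ∧ y ++ v ∈ FC.Star (C : Set (List α)))
    (y : α) (h2 : ∀ w ∈ C, w.count y ≤ 2) :
    (∃ S P : Set (List α), S.Finite ∧ P.Finite ∧ Tiles (C : Set (List α)) S P ∅) ∧
    ∃ D : Finset (List α), IsPrefixCode (D : Set (List α)) ∧
      ∃ F : List α → List α, Set.BijOn F C D ∧ ∀ w ∈ C, (F w).Perm w := by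
  have hcomp := hMax α C hC hmax
  obtain ⟨c, hc⟩ : ∃ c, c ∈ (C : Set (List α)) := by
    obtain ⟨u, v, h⟩ := hcomp [y]
    obtain ⟨x, p, -, hp, -⟩ := st_last h (by simp)
    exact ⟨p, hp⟩
  obtain ⟨x0, hx0, y0, hy0, hsync⟩ := hs
  have hS := setup_of_sync C.finite_toSet hC hcomp hx0 hy0 hc hsync
  obtain ⟨S, P, hSf, hPf, hT⟩ := factP hGf hdeg hS h2
  exact ⟨⟨S, P, hSf, hPf, hT⟩, of_tiles hGf hTree C hC S P hSf hPf hT⟩

end Pool.Agent.H35.FY
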