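import Pool.Agent.H35.FS.Core
import Pool.Agent.H35.FS.Deg
import Pool.Agent.H35.FS.End

/-!
# A letter which occurs at most twice in each codeword: the contexts
-/

set_option autoImplicit false

namespace Pool.Agent.H35.FY

open Pool.Agent.H35.FC (IsCode Facts Tiles star_nil star_append star_of_mem split cut)
open Pool.Agent.H35.FS (Setup RC LC Aset Bset Nset A_snoc B_cons A_deg B_deg st_first st_last
  rc_of_aset lc_of_bset rc_star lc_star nil_mem_aset nil_mem_bset aset_finite bset_finite
  nset_finite aset_nonempty bset_nonempty partP ncut acut SDeg)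

/-- The indicator of `y`. -/
def om {α : Type} [DecidableEq α] (y : α) : α → ℕ := fun x => if x = y then 1 else 0

theorem om_self {α : Type} [DecidableEq α] (y : α) : om y y = 1 := by simp [om]

theorem deg_om {α : Type} [DecidableEq α] (y : α) (w : List α) :
    FS.deg (om y) w = w.count y := by
  induction w with
  | nil => rfl
  | cons x w ih =>
    rw [FS.deg_cons, ih, List.count_cons, om]
    by_cases h : x = y
    · simp [h, add_comm]
    · simp [h]

/-- What is left after the degree arguments. -/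
structure Hyp {α : Type} [DecidableEq α] (C : Set (List α)) (y : α) : Prop where
  su : Setup C [y] [y]
  d2 : ∀ w ∈ C, w.count y ≤ 2
  ne : ∀ g f, (Nset C [y] [y] g f).Nonempty
  n0 : ∀ g f, ∀ u ∈ Nset C [y] [y] (g ++ [y]) (y :: f), u.count y = 0

section
variable {α : Type} [DecidableEq α] {C : Set (List α)} {l r : List α} {y : α}

/-- a word between two contexts which both are completed by it is in `C*` -/
theorem star_of_rc_lc (hS : Setup C l r) {z : List α} (h1 : RC C l z) (h2 : LC C r z) :
    z ∈ FC.Star C := by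
  rcases split α C z r h2 with ⟨h, -⟩ | ⟨X, p, s, Y, hX, hY, hp, hs, hc, e1, e2⟩
  · exact h
  · exfalso
    have l1 := congrArg List.length e1
    have hp' : 0 < p.length := List.length_pos_iff.2 hp
    have hs' : 0 < s.length := List.length_pos_iff.2 hs
    have key := cut α C hS.code (l ++ z) r (l ++ X) (p ++ s) Y h1 hS.rmem
      (star_append hS.lmem hX) hc hY (by
        rw [e1, e2]
        simp only [List.append_assoc])
    simp only [List.length_append] at l1 key
    omega

theorem A_cnt {d : ℕ} (hd : ∀ c ∈ C, c.count y ≤ d) {g v : List α}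
    (hv : v ∈ Aset C l (g ++ [y])) : 1 + v.count y ≤ d := by
  have h1 : ∀ c ∈ C, FS.deg (om y) c ≤ d := fun c hc => by
    rw [deg_om]
    exact hd c hc
  have h2 := A_deg h1 hv
  rwa [om_self, deg_om] at h2

theorem B_cnt {d : ℕ} (hd : ∀ c ∈ C, c.count y ≤ d) {f v : List α}
    (hv : v ∈ Bset C r (y :: f)) : 1 + v.count y ≤ d := by
  have h1 : ∀ c ∈ C, FS.deg (om y) c ≤ d := fun c hc => by
    rw [deg_om]
    exact hd c hc
  have h2 := B_deg h1 hv
  rwa [om_self, deg_om] at h2

theorem gf_cnt (hdeg : SDeg) [Fintype α] (hS : Setup C l r) {g f : List α} {k k' : ℕ}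
    (hA : ∀ v ∈ Aset C l g, v.count y ≤ k) (hB : ∀ v ∈ Bset C r f, v.count y ≤ k')
    {u : List α} (hu : u ∈ Nset C l r g f) {c : List α} (hc : c ∈ C) :
    c.count y + u.count y ≤ k + k' := by
  have ht := partP α C l r hS g f
  obtain ⟨s, hs, p, hp, hsp⟩ := hdeg α hS.fin.toFinset (aset_finite hS g).toFinset
    (bset_finite hS f).toFinset (nset_finite hS g f).toFinset (om y) y (by simp [om_self])
    (by rw [Set.Finite.coe_toFinset]; exact hS.code)
    (by simpa only [Set.Finite.coe_toFinset] using ht) u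
    ((Set.Finite.mem_toFinset _).2 hu) c ((Set.Finite.mem_toFinset _).2 hc)
  rw [Set.Finite.mem_toFinset] at hs hp
  rw [deg_om, deg_om, deg_om, deg_om] at hsp
  have h1 := hA s hs
  have h2 := hB p hp
  omega

/-- Step 1. -/
theorem step1 (hdeg : SDeg) [Fintype α] (hS : Setup C l r) (h2 : ∀ w ∈ C, w.count y ≤ 2)
    (hN : ∀ g f, (Nset C l r g f).Nonempty) :
    (∀ g f, ∀ u ∈ Nset C l r (g ++ [y]) (y :: f), u.count y = 0) ∧
      (∀ g, RC C l (g ++ [y])) ∧ ∀ f, LC C r (y :: f) := by
  obtain ⟨c1, hc1, hy1⟩ : ∃ c ∈ C, 1 ≤ c.count y := by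
    obtain ⟨L, hL, e⟩ := hS.comp [y]
    have h1 : y ∈ L.flatten := by
      rw [e]
      simp
    obtain ⟨c, hc, hy⟩ := List.mem_flatten.1 h1
    exact ⟨c, hL c hc, List.count_pos_iff.2 hy⟩
  obtain ⟨c0, hc0, hd⟩ := hS.fin.exists_maximalFor (fun c => c.count y) C ⟨c1, hc1⟩
  have hmax : ∀ c ∈ C, c.count y ≤ c0.count y := by
    intro c hc
    rcases le_total (c.count y) (c0.count y) with h | h
    · exact h
    · exact hd hc h
  have hd1 := hmax c1 hc1
  have hd2 := h2 c0 hc0
  have hAd : ∀ g, ∀ v ∈ Aset C l (g ++ [y]), v.count y ≤ c0.count y - 1 := by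
    intro g v hv
    have := A_cnt hmax hv
    omega
  have hBd : ∀ f, ∀ v ∈ Bset C r (y :: f), v.count y ≤ c0.count y - 1 := by
    intro f v hv
    have := B_cnt hmax hv
    omega
  have hn : ∀ g f, ∀ u ∈ Nset C l r (g ++ [y]) (y :: f), c0.count y = 2 ∧ u.count y = 0 := by
    intro g f u hu
    have := gf_cnt hdeg hS (hAd g) (hBd f) hu hc0
    omega
  have hd0 : c0.count y = 2 := by
    obtain ⟨u, hu⟩ := hN ([] ++ [y]) (y :: [])
    exact (hn _ _ u hu).1
  refine ⟨fun g f u hu => (hn g f u hu).2, fun g => ?_, fun f => ?_⟩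
  · by_contra hr
    have h3 : ∀ v ∈ Aset C l (g ++ [y] ++ [y]), v.count y ≤ 0 := by
      intro v hv
      rcases A_snoc hv with h | ⟨h, -⟩
      · have h4 := A_cnt hmax h
        rw [List.count_cons_self] at h4
        omega
      · exact absurd h hr
    obtain ⟨u, hu⟩ := hN (g ++ [y] ++ [y]) (y :: [])
    have := gf_cnt hdeg hS h3 (hBd []) hu hc0
    omega
  · by_contra hr
    have h3 : ∀ v ∈ Bset C r (y :: y :: f), v.count y ≤ 0 := by
      intro v hv
      rcases B_cons hv with h | ⟨h, -⟩
      · have h4 := B_cnt hmax h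
        rw [List.count_append, List.count_singleton_self] at h4
        omega
      · exact absurd h hr
    obtain ⟨u, hu⟩ := hN ([] ++ [y]) (y :: y :: f)
    have := gf_cnt hdeg hS (hAd []) h3 hu hc0
    omega

/-- A code with an empty `N` is factorizing. -/
theorem tiles_of_empty (hS : Setup C l r) {g f : List α} (h : Nset C l r g f = ∅) :
    ∃ S P : Set (List α), S.Finite ∧ P.Finite ∧ Tiles C S P ∅ := by
  refine ⟨Aset C l g, Bset C r f, aset_finite hS g, bset_finite hS f, ?_⟩
  rw [← h]
  exact partP α C l r hS g f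

/-- Steps 1 and 2. -/
theorem coreP (hdeg : SDeg) [Fintype α] (hS : Setup C l r) (h2 : ∀ w ∈ C, w.count y ≤ 2) :
    (∃ S P : Set (List α), S.Finite ∧ P.Finite ∧ Tiles C S P ∅) ∨ Hyp C y := by
  by_cases hN : ∃ g f, Nset C l r g f = ∅
  · obtain ⟨g, f, hgf⟩ := hN
    exact Or.inl (tiles_of_empty hS hgf)
  have hne : ∀ g f, (Nset C l r g f).Nonempty := by
    intro g f
    rw [Set.nonempty_iff_ne_empty]
    exact fun h => hN ⟨g, f, h⟩
  obtain ⟨-, hr, hl⟩ := step1 hdeg hS h2 hne
  have hy : [y] ∈ FC.Star C := star_of_rc_lc hS (by simpa using hr []) (hl [])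
  have hS' : Setup C [y] [y] := by
    refine ⟨hS.fin, hS.code, hy, hy, by simp, by simp, fun w => ?_⟩
    refine star_of_rc_lc hS ?_ ?_
    · have := hr ([y] ++ w)
      rwa [List.append_assoc] at this
    · exact hl (w ++ [y])
  by_cases hN' : ∃ g f, Nset C [y] [y] g f = ∅
  · obtain ⟨g, f, hgf⟩ := hN'
    exact Or.inl (tiles_of_empty hS' hgf)
  have hne' : ∀ g f, (Nset C [y] [y] g f).Nonempty := by
    intro g f
    rw [Set.nonempty_iff_ne_empty]
    exact fun h => hN' ⟨g, f, h⟩
  exact Or.inr ⟨hS', h2, hne', (step1 hdeg hS' h2 hne').1⟩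

/-- every context is complete -/
theorem Hyp.rc (hH : Hyp C y) (g : List α) : RC C [y] (g ++ [y]) := hH.su.comp g

theorem Hyp.lc (hH : Hyp C y) (f : List α) : LC C [y] (y :: f) := by
  have := hH.su.comp f
  simpa [LC] using this

/-- There is a codeword which begins with `y` and has another `y`. -/
theorem Hyp.d1 (hH : Hyp C y) : ∃ v : List α, y :: v ∈ C ∧ v.count y = 1 := by
  obtain ⟨u, x, p, s, z, hx, hz, hp, hs, e1, e2, hc⟩ := hH.ne [] []
  have hp1 : p = [y] := by
    rcases x with _ | ⟨b, x⟩
    · simpa using e1.symm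
    · have := congrArg List.length e1
      simp only [List.length_append, List.length_cons, List.length_nil] at this
      have := List.length_pos_iff.2 hp
      omega
  have hs1 : s = [y] := by
    rcases z with _ | ⟨b, z⟩
    · simpa using e2.symm
    · have := congrArg List.length e2
      simp only [List.length_append, List.length_cons, List.length_nil] at this
      have := List.length_pos_iff.2 hs
      omega
  subst hp1 hs1
  have h2 := hH.d2 _ hc
  refine ⟨u ++ [y], by simpa using hc, ?_⟩
  rw [List.count_append, List.count_append, List.count_singleton_self] at h2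
  rw [List.count_append, List.count_singleton_self]
  omega

end

end Pool.Agent.H35.FY
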