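import Pool.Agent.H35.FY.Base

/-!
# The end, if all right contexts which begin with `y` have the same completions
-/

set_option autoImplicit false

namespace Pool.Agent.H35.FY

open Pool.Agent.H35.FC (IsCode Facts Tiles star_nil star_append star_of_mem split cut)
open Pool.Agent.H35.FS (Setup RC LC Aset Bset Nset fac rc_of_aset lc_of_bset rc_star lc_star
  aset_finite bset_finite partP ncut)

theorem endP {α : Type} [DecidableEq α] {C : Set (List α)} {y : α} (hH : Hyp C y)
    (hB : ∀ f f' : List α, Bset C [y] (y :: f) = Bset C [y] (y :: f')) :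
    ∃ S P : Set (List α), S.Finite ∧ P.Finite ∧ Tiles C S P ∅ := by
  have hS := hH.su
  obtain ⟨u, hu⟩ := hH.ne ([] ++ [y]) (y :: [])
  have hdu := hH.n0 _ _ u hu
  have hN : ∀ w, u ++ y :: w ∉ Nset C [y] [y] ([] ++ [y]) (y :: []) := by
    intro w hw
    have h1 := hH.n0 _ _ _ hw
    rw [List.count_append, List.count_cons_self] at h1
    omega
  let S' : Set (List α) := {v | u ++ y :: v ∈ Aset C [y] ([] ++ [y])}
  have hex : ∀ w, ∃ t, t ∈ Facts S' (FC.Star C) (Bset C [y] (y :: [])) w := by
    intro w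
    obtain ⟨⟨x, c, β⟩, ⟨h1, h2, h3, h4⟩, -⟩ :=
      (partP α C [y] [y] hS ([] ++ [y]) (y :: []) (u ++ y :: w)).2 (hN w)
    simp only at h1 h2 h3 h4
    have hno : ∀ z, u ≠ x ++ z := by
      intro z e1
      have e2 : c ++ β = z ++ y :: w := by
        rw [e1, List.append_assoc] at h4
        exact List.append_cancel_left h4
      have h5 : LC C [y] (z ++ (y :: (w ++ (y :: [])))) := by
        have h6 := lc_star h2 (lc_of_bset h3)
        rw [← List.append_assoc, e2] at h6
        simpa using h6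
      obtain ⟨c', hc', β', hβ', e3⟩ := fac hS (hH.lc (w ++ (y :: []))) h5
      rw [hB (w ++ (y :: [])) []] at hβ'
      refine ncut hS (g := [] ++ [y]) (f := y :: []) (u1 := x) (u2 := z) (by rw [← e1]; exact hu)
        (rc_of_aset h1) ?_
      rw [← e3, List.append_assoc]
      exact lc_star hc' (lc_of_bset hβ')
    rcases List.append_eq_append_iff.1 h4 with ⟨z, e1, e2⟩ | ⟨z, e1, e2⟩
    · exact absurd e1 (hno z)
    · rcases z with _ | ⟨b, z⟩
      · exact absurd (by simpa using e1.symm) (hno [])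
      · rw [List.cons_append, List.cons.injEq] at e2
        obtain ⟨rfl, e2⟩ := e2
        refine ⟨⟨z, c, β⟩, ?_, h2, h3, e2.symm⟩
        change u ++ y :: z ∈ Aset C [y] ([] ++ [y])
        rw [← e1]
        exact h1
  have hlift : ∀ w v c β, (v, c, β) ∈ Facts S' (FC.Star C) (Bset C [y] (y :: [])) w →
      (u ++ y :: v, c, β) ∈ Facts (Aset C [y] ([] ++ [y])) (FC.Star C) (Bset C [y] (y :: []))
        (u ++ y :: w) := by
    rintro w v c β ⟨h1, h2, h3, h4⟩
    refine ⟨h1, h2, h3, ?_⟩
    simp only at h4 ⊢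
    rw [← h4]; simp
  have hun : ∀ w t t', t ∈ Facts S' (FC.Star C) (Bset C [y] (y :: [])) w →
      t' ∈ Facts S' (FC.Star C) (Bset C [y] (y :: [])) w → t = t' := by
    rintro w ⟨v, c, β⟩ ⟨v', c', β'⟩ h h'
    have hun := (partP α C [y] [y] hS ([] ++ [y]) (y :: []) (u ++ y :: w)).2 (hN w)
    have := hun.unique (hlift w v c β h) (hlift w v' c' β' h')
    simp only [Prod.mk.injEq, List.append_cancel_left_eq, List.cons.injEq, true_and] at this ⊢
    exact this
  have hfinS : S'.Finite := by
    refine Set.Finite.preimage ?_ (aset_finite hS ([] ++ [y]))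
    intro x _ y _ hxy
    simpa using hxy
  refine ⟨S', Bset C [y] (y :: []), hfinS, bset_finite hS _,
    fun w => ⟨fun h => h.elim, fun _ => ?_⟩⟩
  obtain ⟨t, ht⟩ := hex w
  exact ⟨t, ht, fun t' ht' => hun w t' t ht' ht⟩

end Pool.Agent.H35.FY
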