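import Pool.Agent.H35.FY.Two

/-!
# Contexts of a complete code whose words have at most two letters `y`
-/

set_option autoImplicit false

namespace Pool.Agent.H35.FY

open Pool.Agent.H35.FC (IsCode Facts Tiles star_nil star_append star_of_mem split cut)
open Pool.Agent.H35.FS (Setup Aset Bset Nset st_last st_first SDeg)

section
variable {α : Type} {C : Set (List α)}

/-- `C*` is stable. -/
theorem stable (hC : IsCode C) {P q Q : List α} (hP : P ∈ FC.Star C) (hQ : Q ∈ FC.Star C)
    (h1 : P ++ q ∈ FC.Star C) (h2 : q ++ Q ∈ FC.Star C) : q ∈ FC.Star C := by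
  rcases split α C q Q h2 with ⟨h, -⟩ | ⟨X, p, s, Y, hX, hY, hp, hs, hc, e1, e2⟩
  · exact h
  · exfalso
    have l1 := congrArg List.length e1
    have hp' : 0 < p.length := List.length_pos_iff.2 hp
    have hs' : 0 < s.length := List.length_pos_iff.2 hs
    have key := cut α C hC (P ++ q) Q (P ++ X) (p ++ s) Y h1 hQ
      (star_append hP hX) hc hY (by
        rw [e1, e2]
        simp only [List.append_assoc])
    simp only [List.length_append] at l1 key
    omega

/-- Words `U`, `V` such that `U z V ∈ C*` for all `z` give contexts. -/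
theorem setup_of_UV (hF : C.Finite) (hC : IsCode C) {c U V : List α} (hc : c ∈ C)
    (h : ∀ z : List α, U ++ (z ++ V) ∈ FC.Star C) :
    Setup C (c ++ (U ++ V)) ((U ++ V) ++ c) := by
  have hcn : c ≠ [] := fun h => hC.1 (h ▸ hc)
  have hUV : U ++ V ∈ FC.Star C := by simpa using h []
  refine ⟨hF, hC, star_append (star_of_mem hc) hUV, star_append hUV (star_of_mem hc),
    by simp [hcn], by simp [hcn], fun w => ?_⟩
  have h1 := h (V ++ (w ++ U))
  have h2 := star_append (star_append (star_of_mem hc) h1) (star_of_mem hc)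
  simpa only [List.append_assoc] using h2

/-- The phases. -/
def Ph (y : α) (e : Bool) : List α := if e then [y, y, y] else [y, y]

/-- `w` leads from phase `e` to phase `e'`. -/
def T (C : Set (List α)) (y : α) (e : Bool) (w : List α) (e' : Bool) : Prop :=
  Ph y e ++ (w ++ Ph y e') ∈ FC.Star C

variable [DecidableEq α] {y : α}

/-- A block of four letters `y` is cut in the middle, or on both sides of the middle. -/
theorem mid (h2 : ∀ w ∈ C, w.count y ≤ 2) {u v : List α}
    (h : (u ++ [y, y]) ++ ([y, y] ++ v) ∈ FC.Star C) :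
    (u ++ [y, y] ∈ FC.Star C ∧ [y, y] ++ v ∈ FC.Star C) ∨
      (u ++ [y] ∈ FC.Star C ∧ [y] ++ v ∈ FC.Star C ∧ [y, y] ∈ C) := by
  rcases split α C _ _ h with h1 | ⟨X, p, s, Y, hX, hY, hp, hs, hc, e1, e2⟩
  · exact Or.inl h1
  right
  have hcnt := h2 _ hc
  rw [List.count_append] at hcnt
  obtain ⟨p', rfl, e3⟩ : ∃ p', p = p' ++ [y] ∧ u ++ [y] = X ++ p' := by
    rcases List.eq_nil_or_concat p with h4 | ⟨p', z, h4⟩
    · exact absurd h4 hp
    · rw [List.concat_eq_append] at h4
      subst h4
      have h5 : (u ++ [y]) ++ [y] = (X ++ p') ++ [z] := by simpa using e1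
      obtain ⟨h6, h7⟩ := List.append_inj' h5 rfl
      have h8 : y = z := by simpa using h7
      subst h8
      exact ⟨p', rfl, h6⟩
  obtain ⟨s', rfl, e4⟩ : ∃ s', s = y :: s' ∧ y :: v = s' ++ Y := by
    rcases s with _ | ⟨z, s'⟩
    · exact absurd rfl hs
    · have h5 : y :: (y :: v) = z :: (s' ++ Y) := by simpa using e2
      obtain ⟨h6, h7⟩ := List.cons.inj h5
      subst h6
      exact ⟨s', rfl, h7⟩
  rw [List.count_append, List.count_singleton_self, List.count_cons_self] at hcnt
  have hp' : p' = [] := by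
    rcases List.eq_nil_or_concat p' with h4 | ⟨p2, z, h4⟩
    · exact h4
    · exfalso
      rw [List.concat_eq_append] at h4
      subst h4
      have h5 : u ++ [y] = (X ++ p2) ++ [z] := by simpa using e3
      obtain ⟨h6, h7⟩ := List.append_inj' h5 rfl
      have h8 : y = z := by simpa using h7
      subst h8
      rw [List.count_append, List.count_singleton_self] at hcnt
      omega
  have hs' : s' = [] := by
    rcases s' with _ | ⟨z, s2⟩
    · rfl
    · exfalso
      obtain ⟨h6, h7⟩ := List.cons.inj e4
      subst h6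
      rw [List.count_cons_self] at hcnt
      omega
  subst hp' hs'
  rw [List.append_nil] at e3
  rw [List.nil_append] at e4
  refine ⟨?_, ?_, by simpa using hc⟩
  · rw [e3]
    exact hX
  · show y :: v ∈ FC.Star C
    rw [e4]
    exact hY

/-- `y ∈ C` or `y y ∈ C`. -/
theorem pow_mem (hC : IsCode C) (h2 : ∀ w ∈ C, w.count y ≤ 2)
    (hcomp : ∀ w : List α, ∃ u v, u ++ (w ++ v) ∈ FC.Star C) : [y] ∈ C ∨ [y, y] ∈ C := by
  obtain ⟨u, v, h⟩ := hcomp [y, y, y, y, y, y]
  rcases mid h2 (u := u ++ [y]) (v := y :: v) (by simpa using h) with ⟨-, h1⟩ | ⟨-, -, h1⟩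
  · obtain ⟨s, Y, hs, hY, e⟩ := st_first h1 (by simp)
    have e' : y :: y :: y :: v = s ++ Y := by simpa using e
    have hcnt := h2 _ hs
    rcases s with _ | ⟨a, _ | ⟨b, _ | ⟨c, s⟩⟩⟩
    · exact absurd hs hC.1
    · left
      rw [List.cons_append, List.cons.injEq] at e'
      rw [e'.1]
      exact hs
    · right
      rw [List.cons_append, List.cons.injEq, List.cons_append, List.cons.injEq] at e'
      have ha := e'.1
      have hb := e'.2.1
      rw [← ha, ← hb] at hs
      exact hs
    · exfalso
      rw [List.cons_append, List.cons.injEq, List.cons_append, List.cons.injEq, List.cons_append,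
        List.cons.injEq] at e'
      obtain ⟨ha, hb, hc, -⟩ := e'
      rw [← ha, ← hb, ← hc, List.count_cons_self, List.count_cons_self, List.count_cons_self]
        at hcnt
      omega
  · exact Or.inr h1

/-- If `y ∈ C` then `y y` is a context on both sides. -/
theorem case_one (h2 : ∀ w ∈ C, w.count y ≤ 2)
    (hcomp : ∀ w : List α, ∃ u v, u ++ (w ++ v) ∈ FC.Star C) (hy : [y] ∈ C) (z : List α) :
    [y, y] ++ (z ++ [y, y]) ∈ FC.Star C := by
  obtain ⟨u, v, h⟩ := hcomp ([y, y, y, y] ++ (z ++ [y, y, y, y]))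
  have h1 : [y, y] ++ (z ++ ([y, y, y, y] ++ v)) ∈ FC.Star C := by
    rcases mid h2 (u := u) (v := z ++ ([y, y, y, y] ++ v)) (by simpa using h) with
      ⟨-, h1⟩ | ⟨-, h1, -⟩
    · exact h1
    · have := star_append (star_of_mem hy) h1
      simpa using this
  rcases mid h2 (u := [y, y] ++ z) (v := v) (by simpa using h1) with ⟨h3, -⟩ | ⟨h3, -, -⟩
  · simpa using h3
  · have := star_append h3 (star_of_mem hy)
    simpa using this

/-! ### The phases, if `y y ∈ C` -/

/-- Each word leads from some phase to some phase. -/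
theorem T_total (h2 : ∀ w ∈ C, w.count y ≤ 2)
    (hcomp : ∀ w : List α, ∃ u v, u ++ (w ++ v) ∈ FC.Star C) (hyy : [y, y] ∈ C) (w : List α) :
    ∃ e e', T C y e w e' := by
  obtain ⟨u, v, h⟩ := hcomp ([y, y, y, y] ++ (w ++ [y, y, y, y]))
  obtain ⟨e, he⟩ : ∃ e, Ph y e ++ (w ++ ([y, y, y, y] ++ v)) ∈ FC.Star C := by
    rcases mid h2 (u := u) (v := w ++ ([y, y, y, y] ++ v)) (by simpa using h) with
      ⟨-, h1⟩ | ⟨-, h1, -⟩
    · exact ⟨false, by simpa [Ph] using h1⟩
    · have := star_append (star_of_mem hyy) h1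
      exact ⟨true, by simpa [Ph] using this⟩
  refine ⟨e, ?_⟩
  rcases mid h2 (u := Ph y e ++ w) (v := v) (by simpa using he) with ⟨h3, -⟩ | ⟨h3, -, -⟩
  · exact ⟨false, by simpa [T, Ph] using h3⟩
  · have := star_append h3 (star_of_mem hyy)
    exact ⟨true, by simpa [T, Ph] using this⟩

/-- six letters `y` -/
def y6 (y : α) : List α := [y, y, y, y, y, y]

/-- A path can be decomposed. -/
theorem T_dec (h2 : ∀ w ∈ C, w.count y ≤ 2) {e e' : Bool} {w w' : List α}
    (h : T C y e (w ++ (y6 y ++ w')) e') : ∃ j, T C y e w j ∧ T C y j w' e' := by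
  unfold T y6 at h
  rcases mid h2 (u := Ph y e ++ (w ++ [y])) (v := y :: (w' ++ Ph y e')) (by simpa using h) with
    ⟨h3, h4⟩ | ⟨h3, h4, -⟩
  · exact ⟨true, by simpa [T, Ph] using h3, by simpa [T, Ph] using h4⟩
  · exact ⟨false, by simpa [T, Ph] using h3, by simpa [T, Ph] using h4⟩

/-- Paths can be composed. -/
theorem T_comp (hyy : [y, y] ∈ C) {e j e' : Bool} {w w' : List α}
    (h : T C y e w j) (h' : T C y j w' e') : T C y e (w ++ (y6 y ++ w')) e' := by
  unfold T y6
  cases j with
  | false =>
    have := star_append (star_append h (star_of_mem hyy)) h'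
    simpa [T, Ph] using this
  | true =>
    have := star_append h h'
    simpa [T, Ph] using this

/-- Paths are unambiguous. -/
theorem T_amb (hC : IsCode C) (hyy : [y, y] ∈ C) (hy : [y] ∉ FC.Star C) {e e' : Bool}
    {w w' : List α} (h0 : T C y e w false) (h0' : T C y false w' e') (h1 : T C y e w true)
    (h1' : T C y true w' e') : False := by
  apply hy
  refine stable hC (P := Ph y e ++ (w ++ [y, y])) (Q := [y, y, y] ++ (w' ++ Ph y e')) ?_ ?_ ?_ ?_
  · simpa [T, Ph] using h0
  · simpa [T, Ph] using h1'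
  · simpa [T, Ph] using h1
  · have := star_append (star_of_mem hyy) h0'
    simpa [T, Ph] using this

theorem y_notin (hC : IsCode C) (hyy : [y, y] ∈ C) : [y] ∉ FC.Star C := by
  intro h
  obtain ⟨s, Y, hs, hY, e⟩ := st_first h (by simp)
  have hs1 : s = [y] := by
    rcases s with _ | ⟨a, s⟩
    · exact absurd hs hC.1
    · obtain ⟨h6, h7⟩ := List.cons.inj e
      subst h6
      rcases s with _ | ⟨b, s⟩
      · rfl
      · simp at h7
  rw [hs1] at hs
  have h3 := hC.2 [[y, y]] [[y], [y]] (by simpa using hyy) (by simpa using hs) (by simp)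
  have h4 := congrArg List.length h3
  simp at h4

/-- Either there are contexts, or each word leads from each phase to exactly one phase. -/
theorem case_two (hC : IsCode C) (h2 : ∀ w ∈ C, w.count y ≤ 2)
    (hcomp : ∀ w : List α, ∃ u v, u ++ (w ++ v) ∈ FC.Star C) (hyy : [y, y] ∈ C) :
    (∃ U V : List α, ∀ z : List α, U ++ (z ++ V) ∈ FC.Star C) ∨
      ∀ w, (T C y false w false ∨ T C y false w true) ∧
        ¬ (T C y false w false ∧ T C y false w true) := by
  have hy := y_notin hC hyy
  by_cases hz : ∃ w e, ¬ T C y e w false ∧ ¬ T C y e w true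
  · left
    obtain ⟨w, e, hf, ht⟩ := hz
    have hno : ∀ j, ¬ T C y e w j := by
      intro j
      cases j
      · exact hf
      · exact ht
    obtain ⟨e1, e0, h0⟩ := T_total h2 hcomp hyy w
    have he1 : e1 = !e := by
      cases e <;> cases e1 <;> first | rfl | exact absurd h0 (hno _)
    subst he1
    refine ⟨Ph y (!e) ++ (w ++ y6 y), y6 y ++ (w ++ Ph y e0), fun z => ?_⟩
    obtain ⟨a, b, hab⟩ := T_total h2 hcomp hyy (w ++ (y6 y ++ (z ++ (y6 y ++ w))))
    obtain ⟨j, hj, hj'⟩ := T_dec h2 hab
    obtain ⟨k, hk, hk'⟩ := T_dec h2 hj'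
    have ha : a = !e := by
      cases e <;> cases a <;> first | rfl | exact absurd hj (hno _)
    have hk0 : k = !e := by
      cases e <;> cases k <;> first | rfl | exact absurd hk' (hno _)
    subst ha hk0
    have h9 := T_comp hyy hj (T_comp hyy hk h0)
    unfold T at h9
    simpa only [List.append_assoc] using h9
  · right
    push Not at hz
    have hne : ∀ w e, ∃ j, T C y e w j := by
      intro w e
      by_cases h : T C y e w false
      · exact ⟨false, h⟩
      · exact ⟨true, hz w e h⟩
    intro w
    refine ⟨?_, ?_⟩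
    · obtain ⟨j, hj⟩ := hne w false
      cases j
      · exact Or.inl hj
      · exact Or.inr hj
    · rintro ⟨h0, h1⟩
      obtain ⟨j, hj⟩ := hne w true
      cases j
      · exact T_amb hC hyy hy h0 h0 h1 hj
      · exact T_amb hC hyy hy h0 h1 h1 hj

/-- In the second case one `N` is empty. -/
theorem tiles_two (hdeg : SDeg) [Fintype α] (hF : C.Finite) (hC : IsCode C)
    (h2 : ∀ w ∈ C, w.count y ≤ 2) (hyy : [y, y] ∈ C)
    (h : ∀ w, (T C y false w false ∨ T C y false w true) ∧
        ¬ (T C y false w false ∧ T C y false w true)) :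
    ∃ S P : Set (List α), S.Finite ∧ P.Finite ∧ Tiles C S P ∅ := by
  have hy := y_notin hC hyy
  have hS : Two C [y, y] [y, y] [y, y, y] := by
    refine ⟨hF, hC, by simp, by simp, by simp, fun w => ?_, fun w => ?_⟩
    · simpa [T, Ph] using (h w).1
    · simpa [T, Ph] using (h w).2
  have ht := two_tiles hS [y, y] [y]
  have hA : ∀ v ∈ Aset C [y, y] [y, y], v.count y = 0 := by
    rintro v ⟨x, p, hx, hp, e, hc⟩
    have hcnt := h2 _ hc
    rw [List.count_append] at hcnt
    have hp2 : 2 ≤ p.count y := by
      have e1 : ([y, y, y] : List α) ++ [y] = x ++ p := by simpa using e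
      rcases List.eq_nil_or_concat p with h4 | ⟨p', z, h4⟩
      · exact absurd h4 hp
      · rw [List.concat_eq_append] at h4
        subst h4
        rw [← List.append_assoc] at e1
        obtain ⟨h6, h7⟩ := List.append_inj' e1 rfl
        have h8 : y = z := by simpa using h7
        subst h8
        rcases List.eq_nil_or_concat p' with h4 | ⟨p2, z, h4⟩
        · exfalso
          subst h4
          rw [List.append_nil] at h6
          rw [← h6] at hx
          apply hy
          refine stable hC (P := [y, y]) (Q := [y, y]) (star_of_mem hyy) (star_of_mem hyy) ?_ ?_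
          · simpa using hx
          · simpa using hx
        · rw [List.concat_eq_append] at h4
          subst h4
          have h9 : ([y, y] : List α) ++ [y] = (x ++ p2) ++ [z] := by simpa using h6
          obtain ⟨h10, h11⟩ := List.append_inj' h9 rfl
          have h12 : y = z := by simpa using h11
          subst h12
          rw [List.count_append, List.count_append, List.count_singleton_self]
          omega
    omega
  have hB : ∀ v ∈ Bset C [y, y] [y] ∪ Bset C [y, y, y] [y], v.count y ≤ 1 := by
    rintro v (hv | hv)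
    · have := B_cnt h2 (f := []) hv
      omega
    · have := B_cnt h2 (f := []) hv
      omega
  have hfA := aset_fin (C := C) (l := [y, y]) hF [y, y]
  have hfB : (Bset C [y, y] [y] ∪ Bset C [y, y, y] [y]).Finite :=
    (bset_fin hF _).union (bset_fin hF _)
  have hfN : (Nset C [y, y] [y, y] [y, y] [y] ∪ Nset C [y, y] [y, y, y] [y, y] [y]).Finite :=
    (nset_fin hF _ _).union (nset_fin hF _ _)
  have hN : Nset C [y, y] [y, y] [y, y] [y] ∪ Nset C [y, y] [y, y, y] [y, y] [y] = ∅ := by
    rw [Set.eq_empty_iff_forall_notMem]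
    intro u hu
    obtain ⟨s, hs, p, hp, hsp⟩ := hdeg α hF.toFinset hfA.toFinset hfB.toFinset hfN.toFinset
      (om y) y (by simp [om_self]) (by rw [Set.Finite.coe_toFinset]; exact hC)
      (by simpa only [Set.Finite.coe_toFinset] using ht) u
      ((Set.Finite.mem_toFinset _).2 hu) [y, y] ((Set.Finite.mem_toFinset _).2 hyy)
    rw [Set.Finite.mem_toFinset] at hs hp
    rw [deg_om, deg_om, deg_om, deg_om, List.count_cons_self, List.count_singleton_self] at hsp
    have h3 := hA s hs
    have h4 := hB p hp
    omega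
  rw [hN] at ht
  exact ⟨_, _, hfA, hfB, ht⟩

end

end Pool.Agent.H35.FY
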