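import Pool.Agent.H35.FY.Asm
import Pool.Agent.H35.FY.Phase

/-!
# Assembly, without synchronization
-/

set_option autoImplicit false

namespace Pool.Agent.H35.FY

open Pool.Agent.H35.FC (IsCode IsPrefixCode Facts Tiles gf SGf STree of_tiles)
open Pool.Agent.H35.FS (Setup SDeg SMax st_last)

/-- A complete code with a letter which occurs at most twice in each word is factorizing. -/
theorem factG (hGf : SGf) (hdeg : SDeg) {α : Type} [Fintype α] [DecidableEq α]
    {C : Finset (List α)} (hC : IsCode (C : Set (List α)))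
    (hcomp : ∀ w : List α, ∃ u v, u ++ (w ++ v) ∈ FC.Star (C : Set (List α)))
    {y : α} (h2 : ∀ w ∈ C, w.count y ≤ 2) :
    ∃ S P : Set (List α), S.Finite ∧ P.Finite ∧ Tiles (C : Set (List α)) S P ∅ := by
  have h2' : ∀ w ∈ (C : Set (List α)), w.count y ≤ 2 := fun w hw => h2 w (by exact_mod_cast hw)
  have key : (∃ U V : List α, ∀ z : List α, U ++ (z ++ V) ∈ FC.Star (C : Set (List α))) →
      ∃ S P : Set (List α), S.Finite ∧ P.Finite ∧ Tiles (C : Set (List α)) S P ∅ := by
    rintro ⟨U, V, h⟩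
    obtain ⟨c, hc⟩ : ∃ c, c ∈ (C : Set (List α)) := by
      obtain ⟨u, v, h⟩ := hcomp [y]
      obtain ⟨x, p, -, hp, -⟩ := st_last h (by simp)
      exact ⟨p, hp⟩
    exact factP hGf hdeg (setup_of_UV C.finite_toSet hC hc h) h2
  rcases pow_mem hC h2' hcomp with hy | hyy
  · exact key ⟨[y, y], [y, y], case_one h2' hcomp hy⟩
  · rcases case_two hC h2' hcomp hyy with h | h
    · exact key h
    · exact tiles_two hdeg C.finite_toSet hC h2' hyy h

theorem assemblyG (hMax : SMax) (hGf : SGf) (hTree : STree) (hdeg : SDeg)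
    {α : Type} [Fintype α] [DecidableEq α] (C : Finset (List α))
    (hC : IsCode (C : Set (List α)))
    (hmax : ∀ D : Set (List α), IsCode D → (C : Set (List α)) ⊆ D → D = C)
    (y : α) (h2 : ∀ w ∈ C, w.count y ≤ 2) :
    (∃ S P : Set (List α), S.Finite ∧ P.Finite ∧ Tiles (C : Set (List α)) S P ∅) ∧
    ∃ D : Finset (List α), IsPrefixCode (D : Set (List α)) ∧
      ∃ F : List α → List α, Set.BijOn F C D ∧ ∀ w ∈ C, (F w).Perm w := by
  obtain ⟨S, P, hSf, hPf, hT⟩ := factG hGf hdeg hC (hMax α C hC hmax) h2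
  exact ⟨⟨S, P, hSf, hPf, hT⟩, of_tiles hGf hTree C hC S P hSf hPf hT⟩

end Pool.Agent.H35.FY
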